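import Mathlib
import Pool.Agent.Helper467.FP.Defs
import Pool.Agent.Helper467.FP.P_n2_mul_le
import Pool.Agent.Helper467.FP.P_exists_fixed

/-!
Closed groups of unitaries of a tracial von Neumann algebra: tangent vectors.
-/

set_option autoImplicit false

open scoped ComplexOrder Topology
open Filter

noncomputable section

namespace Pool.Agent.H917R3.DO

open Pool.Agent.H467F

variable {A : Type} [CStarAlgebra A] {τ : A →ₗ[ℂ] ℂ}

/-- a multiplicative group of unitaries -/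
structure Gp (G : Set A) : Prop where
  uni : ∀ g ∈ G, star g * g = 1 ∧ g * star g = 1
  one : (1 : A) ∈ G
  mul : ∀ g ∈ G, ∀ k ∈ G, g * k ∈ G
  str : ∀ g ∈ G, star g ∈ G

/-- tangent vectors of `G` (at `1`) -/
def Tg (τ : A →ₗ[ℂ] ℂ) (G : Set A) (x : A) : Prop :=
  star x = x ∧ ∀ ε : ℝ, 0 < ε → ∃ δ : ℝ, 0 < δ ∧ ∀ t : ℝ, 0 < t → t < δ →
    ∃ k ∈ G, n2 τ (k - 1 - (Complex.I * t) • x) ≤ ε * t

theorem norm_le_of_uni {g : A} (hg : star g * g = 1) : ‖g‖ ≤ 1 := by
  rcases subsingleton_or_nontrivial A with h | h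
  · rw [Subsingleton.elim g 0, norm_zero]; exact zero_le_one
  · have h2 := CStarRing.norm_star_mul_self (x := g)
    rw [hg, CStarRing.norm_one] at h2
    nlinarith [norm_nonneg g]

theorem n2_le_norm (h : TW τ) (x : A) : n2 τ x ≤ ‖x‖ := by
  have h1 := (n2_mul_le h x 1).1
  rw [mul_one] at h1
  have h2 : n2 τ (1 : A) = 1 := by
    unfold n2
    rw [star_one, mul_one, h.one]
    simp
  rw [h2, mul_one] at h1
  exact h1

theorem n2_uni_left (h : TW τ) {g : A} (hg : star g * g = 1) (x : A) :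
    n2 τ (g * x) = n2 τ x := by
  unfold n2
  rw [star_mul, mul_assoc, ← mul_assoc (star g), hg, one_mul]

theorem n2_uni_right (h : TW τ) {g : A} (hg : g * star g = 1) (x : A) :
    n2 τ (x * g) = n2 τ x := by
  rw [← h.n2_star, star_mul, n2_uni_left h (by rw [star_star]; exact hg), h.n2_star]

theorem Tg_neg (h : TW τ) {G : Set A} (hG : Gp G) {x : A} (hx : Tg τ G x) : Tg τ G (-x) := by
  refine ⟨by rw [star_neg, hx.1], fun ε hε => ?_⟩
  obtain ⟨δ, hδ, H⟩ := hx.2 ε hε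
  refine ⟨δ, hδ, fun t h0 h1 => ?_⟩
  obtain ⟨k, hk, hkx⟩ := H t h0 h1
  refine ⟨star k, hG.str k hk, ?_⟩
  have e : star k - 1 - (Complex.I * t) • (-x) = star (k - 1 - (Complex.I * t) • x) := by
    rw [star_sub, star_sub, star_one, star_smul, hx.1]
    simp
  rw [e, h.n2_star]
  exact hkx

theorem Tg_pos {G : Set A} {x : A} (hx : Tg τ G x) (c : ℝ) (hc : 0 < c) :
    Tg τ G ((c : ℂ) • x) := by
  refine ⟨?_, fun ε hε => ?_⟩
  · rw [star_smul, hx.1]; simp
  obtain ⟨δ, hδ, H⟩ := hx.2 (ε / c) (by positivity)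
  refine ⟨δ / c, by positivity, fun t h0 h1 => ?_⟩
  obtain ⟨k, hk, hkx⟩ := H (c * t) (by positivity) (by rw [lt_div_iff₀ hc] at h1; linarith)
  refine ⟨k, hk, ?_⟩
  rw [smul_smul]
  have e : Complex.I * (t : ℂ) * (c : ℂ) = Complex.I * ((c * t : ℝ) : ℂ) := by
    push_cast; ring
  rw [e]
  refine hkx.trans (le_of_eq ?_)
  field_simp

theorem Tg_zero {G : Set A} (hG : Gp G) : Tg τ G 0 := by
  refine ⟨star_zero _, fun ε hε => ⟨1, one_pos, fun t h0 _ => ⟨1, hG.one, ?_⟩⟩⟩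
  rw [sub_self, smul_zero, sub_zero, n2_zero]
  positivity

theorem Tg_real (h : TW τ) {G : Set A} (hG : Gp G) {x : A} (hx : Tg τ G x) (c : ℝ) :
    Tg τ G ((c : ℂ) • x) := by
  rcases lt_trichotomy c 0 with hc | rfl | hc
  · have h1 := Tg_neg h hG (Tg_pos hx (-c) (by linarith))
    have e : -(((-c : ℝ) : ℂ) • x) = (c : ℂ) • x := by
      push_cast; rw [neg_smul, neg_neg]
    rwa [e] at h1
  · simpa using Tg_zero hG
  · exact Tg_pos hx c hc

theorem Tg_add (h : TW τ) {G : Set A} (hG : Gp G) {x y : A} (hx : Tg τ G x) (hy : Tg τ G y) :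
    Tg τ G (x + y) := by
  refine ⟨by rw [star_add, hx.1, hy.1], fun ε hε => ?_⟩
  obtain ⟨δ1, hδ1, H1⟩ := hx.2 (ε / 6) (by positivity)
  obtain ⟨δ2, hδ2, H2⟩ := hy.2 (ε / 6) (by positivity)
  have hM : 0 < ‖x‖ * (ε + ‖y‖ + 1) + 1 := by positivity
  refine ⟨min (min δ1 δ2) (ε / 6 / (‖x‖ * (ε + ‖y‖ + 1) + 1)), ?_, fun t h0 h1 => ?_⟩
  · positivity
  have ht1 : t < δ1 := lt_of_lt_of_le h1 ((min_le_left _ _).trans (min_le_left _ _))
  have ht2 : t < δ2 := lt_of_lt_of_le h1 ((min_le_left _ _).trans (min_le_right _ _))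
  have ht3 : t < ε / 6 / (‖x‖ * (ε + ‖y‖ + 1) + 1) := lt_of_lt_of_le h1 (min_le_right _ _)
  obtain ⟨k, hk, hkx⟩ := H1 t h0 ht1
  obtain ⟨l, hl, hly⟩ := H2 t h0 ht2
  refine ⟨k * l, hG.mul k hk l hl, ?_⟩
  have e : k * l - 1 - (Complex.I * t) • (x + y) =
      ((k - 1 - (Complex.I * t) • x) + (l - 1 - (Complex.I * t) • y)) +
        ((k - 1 - (Complex.I * t) • x) * (l - 1) + ((Complex.I * t) • x) * (l - 1)) := by
    simp only [smul_add]
    noncomm_ring
  rw [e]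
  have hl1 : ‖l - 1‖ ≤ 2 := by
    have a1 := norm_le_of_uni (hG.uni l hl).1
    have a2 := norm_le_of_uni (hG.uni 1 hG.one).1
    exact (norm_sub_le _ _).trans (by linarith)
  have b1 : n2 τ ((k - 1 - (Complex.I * t) • x) * (l - 1)) ≤ (ε / 6 * t) * 2 := by
    refine ((n2_mul_le h (l - 1) (k - 1 - (Complex.I * t) • x)).2).trans ?_
    exact mul_le_mul hkx hl1 (norm_nonneg _) (by positivity)
  have b2 : n2 τ (l - 1) ≤ (ε + ‖y‖ + 1) * t := by
    have e2 : l - 1 = (l - 1 - (Complex.I * t) • y) + (Complex.I * t) • y := by abel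
    rw [e2]
    refine (h.n2_add_le _ _).trans ?_
    have c1 : n2 τ ((Complex.I * (t : ℂ)) • y) ≤ t * ‖y‖ := by
      rw [n2_smul, norm_mul, Complex.norm_I, one_mul, Complex.norm_real, Real.norm_eq_abs,
        abs_of_pos h0]
      exact mul_le_mul_of_nonneg_left (n2_le_norm h y) h0.le
    nlinarith
  have b3 : n2 τ (((Complex.I * t) • x) * (l - 1)) ≤ (t * ‖x‖) * ((ε + ‖y‖ + 1) * t) := by
    refine ((n2_mul_le h ((Complex.I * t) • x) (l - 1)).1).trans ?_
    have c2 : ‖(Complex.I * (t : ℂ)) • x‖ = t * ‖x‖ := by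
      rw [norm_smul, norm_mul, Complex.norm_I, one_mul, Complex.norm_real, Real.norm_eq_abs,
        abs_of_pos h0]
    rw [c2]
    exact mul_le_mul_of_nonneg_left b2 (by positivity)
  have b4 : (t * ‖x‖) * ((ε + ‖y‖ + 1) * t) ≤ (ε / 6) * t := by
    rw [lt_div_iff₀ hM] at ht3
    have : t * (‖x‖ * (ε + ‖y‖ + 1)) ≤ ε / 6 := by nlinarith
    nlinarith
  refine (h.n2_add_le _ _).trans ?_
  have c3 := h.n2_add_le (k - 1 - (Complex.I * t) • x) (l - 1 - (Complex.I * t) • y)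
  have c4 := h.n2_add_le ((k - 1 - (Complex.I * t) • x) * (l - 1)) (((Complex.I * t) • x) * (l - 1))
  nlinarith

theorem Tg_conj (h : TW τ) {G : Set A} (hG : Gp G) {x : A} (hx : Tg τ G x) {g : A} (hg : g ∈ G) :
    Tg τ G (g * x * star g) := by
  refine ⟨by rw [star_mul, star_mul, star_star, hx.1, mul_assoc], fun ε hε => ?_⟩
  obtain ⟨δ, hδ, H⟩ := hx.2 ε hε
  refine ⟨δ, hδ, fun t h0 h1 => ?_⟩
  obtain ⟨k, hk, hkx⟩ := H t h0 h1
  refine ⟨g * k * star g, hG.mul _ (hG.mul _ hg _ hk) _ (hG.str g hg), ?_⟩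
  have e : g * k * star g - 1 - (Complex.I * t) • (g * x * star g) =
      g * (k - 1 - (Complex.I * t) • x) * star g := by
    rw [mul_sub, mul_sub, sub_mul, sub_mul, mul_one, (hG.uni g hg).2, mul_smul_comm, smul_mul_assoc]
  rw [e, n2_uni_right h (by rw [star_star]; exact (hG.uni g hg).1), n2_uni_left h (hG.uni g hg).1]
  exact hkx

theorem Tg_cl (h : TW τ) {G : Set A} {x : A} (hxs : star x = x)
    (hx : ∀ ε : ℝ, 0 < ε → ∃ y, Tg τ G y ∧ n2 τ (x - y) < ε) : Tg τ G x := by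
  refine ⟨hxs, fun ε hε => ?_⟩
  obtain ⟨y, hy, hxy⟩ := hx (ε / 2) (by positivity)
  obtain ⟨δ, hδ, H⟩ := hy.2 (ε / 2) (by positivity)
  refine ⟨δ, hδ, fun t h0 h1 => ?_⟩
  obtain ⟨k, hk, hkx⟩ := H t h0 h1
  refine ⟨k, hk, ?_⟩
  have e : k - 1 - (Complex.I * t) • x =
      (k - 1 - (Complex.I * t) • y) - (Complex.I * t) • (x - y) := by
    rw [smul_sub]; abel
  rw [e]
  refine (h.n2_sub_le _ _).trans ?_
  rw [n2_smul, norm_mul, Complex.norm_I, one_mul, Complex.norm_real, Real.norm_eq_abs,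
    abs_of_pos h0]
  nlinarith

/-- the unitary `exp(i t x)` -/
def ex (x : A) (t : ℝ) : A := NormedSpace.exp (t • (Complex.I • x))

theorem star_ex {x : A} (hx : star x = x) (t : ℝ) : star (ex x t) = ex x (-t) := by
  unfold ex
  rw [NormedSpace.star_exp]
  congr 1
  rw [star_smul, star_smul, hx]
  simp

theorem ex_add (x : A) (s t : ℝ) : ex x (s + t) = ex x s * ex x t := by
  unfold ex
  rw [add_smul]
  let +nondep : NormedAlgebra ℚ A := .restrictScalars ℚ ℂ A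
  exact NormedSpace.exp_add_of_commute ((Commute.refl _).smul_left _ |>.smul_right _)

theorem ex_zero (x : A) : ex x 0 = 1 := by
  unfold ex
  rw [zero_smul, NormedSpace.exp_zero]

theorem ex_uni {x : A} (hx : star x = x) (t : ℝ) :
    star (ex x t) * ex x t = 1 ∧ ex x t * star (ex x t) = 1 := by
  rw [star_ex hx, ← ex_add, ← ex_add]
  simp [ex_zero]

theorem ex_comm {x v : A} (hv : x * v = v * x) (t : ℝ) : ex x t * v = v * ex x t := by
  unfold ex
  have h1 : Commute (t • (Complex.I • x)) v := by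
    have : Commute x v := hv
    exact (this.smul_left _).smul_left _
  exact h1.exp_left

theorem ex_deriv (x : A) : HasDerivAt (fun t : ℝ => ex x t) (Complex.I • x) 0 := by
  unfold ex
  have := hasDerivAt_exp_smul_const (𝕂 := ℝ) (Complex.I • x) (0 : ℝ)
  simpa using this

end Pool.Agent.H917R3.DO
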