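import Mathlib
import Pool.Agent.H917R3.DO.Core

set_option autoImplicit false

open scoped ComplexOrder Topology
open Filter

noncomputable section

namespace Pool.Agent.H917R3.DO

open Pool.Agent.H467F

variable {A : Type} [CStarAlgebra A] {τ : A →ₗ[ℂ] ℂ}

/-- The set `S` of unitaries: `G` contains all unitaries commuting with an element of `S`. -/
structure Sp (G S : Set A) : Prop where
  uni : ∀ v ∈ S, star v * v = 1 ∧ v * star v = 1
  str : ∀ v ∈ S, star v ∈ S
  com : ∀ v ∈ S, ∀ x : A, star x * x = 1 → x * star x = 1 → x * v = v * x → x ∈ G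

/-- complexification of the tangent space -/
def Vc (τ : A →ₗ[ℂ] ℂ) (G : Set A) (x : A) : Prop :=
  ∃ a b : A, Tg τ G a ∧ Tg τ G b ∧ x = a + Complex.I • b

theorem Sp.memG {G S : Set A} (hS : Sp G S) {v : A} (hv : v ∈ S) : v ∈ G :=
  hS.com v hv v (hS.uni v hv).1 (hS.uni v hv).2 rfl

theorem Vc_add (h : TW τ) {G : Set A} (hG : Gp G) {x y : A} (hx : Vc τ G x) (hy : Vc τ G y) :
    Vc τ G (x + y) := by
  obtain ⟨a, b, ha, hb, rfl⟩ := hx
  obtain ⟨c, d, hc, hd, rfl⟩ := hy
  refine ⟨a + c, b + d, Tg_add h hG ha hc, Tg_add h hG hb hd, ?_⟩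
  rw [smul_add]; abel

theorem Vc_smul (h : TW τ) {G : Set A} (hG : Gp G) {x : A} (hx : Vc τ G x) (z : ℂ) :
    Vc τ G (z • x) := by
  obtain ⟨a, b, ha, hb, rfl⟩ := hx
  refine ⟨(z.re : ℂ) • a + ((-z.im : ℝ) : ℂ) • b, (z.re : ℂ) • b + (z.im : ℂ) • a,
    Tg_add h hG (Tg_real h hG ha _) (Tg_real h hG hb _),
    Tg_add h hG (Tg_real h hG hb _) (Tg_real h hG ha _), ?_⟩
  have e : z = (z.re : ℂ) + (z.im : ℂ) * Complex.I := (Complex.re_add_im z).symm
  obtain ⟨r, s, hr⟩ : ∃ r s : ℝ, z = (r : ℂ) + (s : ℂ) * Complex.I := ⟨_, _, e⟩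
  have hre : z.re = r := by rw [hr]; simp
  have him : z.im = s := by rw [hr]; simp
  rw [hre, him, hr]
  have e3 : ((r : ℂ) + (s : ℂ) * Complex.I) * Complex.I = -(s : ℂ) + Complex.I * r := by
    have := Complex.I_mul_I
    linear_combination (s : ℂ) * this
  rw [smul_add, smul_smul, e3]
  push_cast
  module

theorem Vc_sub (h : TW τ) {G : Set A} (hG : Gp G) {x y : A} (hx : Vc τ G x) (hy : Vc τ G y) :
    Vc τ G (x - y) := by
  have := Vc_add h hG hx (Vc_smul h hG hy (-1))
  rwa [neg_one_smul, ← sub_eq_add_neg] at this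

theorem Vc_conj (h : TW τ) {G : Set A} (hG : Gp G) {x : A} (hx : Vc τ G x) {g : A} (hg : g ∈ G) :
    Vc τ G (g * x * star g) := by
  obtain ⟨a, b, ha, hb, rfl⟩ := hx
  refine ⟨_, _, Tg_conj h hG ha hg, Tg_conj h hG hb hg, ?_⟩
  rw [mul_add, add_mul, mul_smul_comm, smul_mul_assoc]

theorem Vc_cl (h : TW τ) {G : Set A} {x : A}
    (hx : ∀ ε : ℝ, 0 < ε → ∃ y, Vc τ G y ∧ n2 τ (x - y) < ε) : Vc τ G x := by
  refine ⟨(1 / 2 : ℂ) • (x + star x), (-(Complex.I / 2) : ℂ) • (x - star x), ?_, ?_, ?_⟩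
  · refine Tg_cl h ?_ fun ε hε => ?_
    · rw [star_smul, star_add, star_star, add_comm]; simp
    · obtain ⟨y, ⟨a, b, ha, hb, rfl⟩, hy⟩ := hx ε hε
      refine ⟨a, ha, ?_⟩
      have e : (1 / 2 : ℂ) • (x + star x) - a = (1 / 2 : ℂ) • ((x - (a + Complex.I • b)) +
          star (x - (a + Complex.I • b))) := by
        rw [star_sub, star_add, star_smul, ha.1, hb.1]
        have e1 : x - (a + Complex.I • b) + (star x - (a + star Complex.I • b)) =
            x + star x - (2 : ℂ) • a := by
          rw [two_smul, Complex.star_def, Complex.conj_I, neg_smul]; abel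
        rw [e1, smul_sub, smul_smul]
        norm_num
      rw [e, n2_smul]
      have h1 := h.n2_add_le (x - (a + Complex.I • b)) (star (x - (a + Complex.I • b)))
      rw [h.n2_star] at h1
      have h2 : ‖(1 / 2 : ℂ)‖ = 1 / 2 := by norm_num
      rw [h2]; linarith
  · refine Tg_cl h ?_ fun ε hε => ?_
    · rw [star_smul, star_sub, star_star, ← neg_sub x (star x), smul_neg, ← neg_smul]
      congr 1
      simp
      ring
    · obtain ⟨y, ⟨a, b, ha, hb, rfl⟩, hy⟩ := hx ε hε
      refine ⟨b, hb, ?_⟩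
      have e : (-(Complex.I / 2) : ℂ) • (x - star x) - b = (-(Complex.I / 2) : ℂ) •
          ((x - (a + Complex.I • b)) - star (x - (a + Complex.I • b))) := by
        rw [star_sub, star_add, star_smul, ha.1, hb.1]
        have e1 : x - (a + Complex.I • b) - (star x - (a + star Complex.I • b)) =
            x - star x - (2 * Complex.I : ℂ) • b := by
          rw [Complex.star_def, Complex.conj_I, neg_smul, two_mul, add_smul]; abel
        have e2 : -(Complex.I / 2) * (2 * Complex.I) = (1 : ℂ) := by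
          have := Complex.I_mul_I
          linear_combination -this
        rw [e1, smul_sub (-(Complex.I / 2)) (x - star x) ((2 * Complex.I) • b), smul_smul, e2,
          one_smul]
      rw [e, n2_smul]
      have h1 := h.n2_sub_le (x - (a + Complex.I • b)) (star (x - (a + Complex.I • b)))
      rw [h.n2_star] at h1
      have h2 : ‖(-(Complex.I / 2) : ℂ)‖ = 1 / 2 := by
        rw [norm_neg, norm_div, Complex.norm_I]; norm_num
      rw [h2]; linarith
  · rw [smul_smul]
    have e2 : Complex.I * -(Complex.I / 2) = (1 / 2 : ℂ) := by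
      have := Complex.I_mul_I
      linear_combination (-1 / 2) * this
    rw [e2, ← smul_add]
    have : x + star x + (x - star x) = (2 : ℂ) • x := by rw [two_smul]; abel
    rw [this, smul_smul]; norm_num

/-- self-adjoint elements commuting with some `v ∈ S` are tangent -/
theorem Tg_com (h : TW τ) {G S : Set A} (hS : Sp G S) {v : A} (hv : v ∈ S) {x : A}
    (hx : star x = x) (hc : x * v = v * x) : Tg τ G x := by
  refine ⟨hx, fun ε hε => ?_⟩
  have h1 := (ex_deriv x).isLittleO.def hε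
  rw [Metric.eventually_nhds_iff] at h1
  obtain ⟨δ, hδ, H⟩ := h1
  refine ⟨δ, hδ, fun t h0 h1 => ?_⟩
  refine ⟨ex x t, hS.com v hv _ (ex_uni hx t).1 (ex_uni hx t).2 (ex_comm hc t), ?_⟩
  have h2 := H (y := t) (by rw [Real.dist_eq, sub_zero, abs_of_pos h0]; exact h1)
  simp only [sub_zero, ex_zero] at h2
  rw [Real.norm_eq_abs, abs_of_pos h0] at h2
  refine (n2_le_norm h _).trans ?_
  have e : (Complex.I * (t : ℂ)) • x = t • (Complex.I • x) := by
    rw [mul_comm, mul_smul]
    exact (Complex.coe_smul t _)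
  rw [e]
  exact h2

theorem Vc_com (h : TW τ) {G S : Set A} (hS : Sp G S) {v : A} (hv : v ∈ S) {x : A}
    (hc : x * v = v * x) : Vc τ G x := by
  have hcs : star x * v = v * star x := by
    have h1 := (hS.uni v hv)
    have h2 : star v * star x = star x * star v := by rw [← star_mul, ← star_mul, hc]
    calc star x * v = (v * star v) * (star x * v) := by rw [h1.2, one_mul]
      _ = v * (star v * star x) * v := by simp only [mul_assoc]
      _ = v * star x * (star v * v) := by rw [h2]; simp only [mul_assoc]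
      _ = v * star x := by rw [h1.1, mul_one]
  refine ⟨(1 / 2 : ℂ) • (x + star x), (-(Complex.I / 2) : ℂ) • (x - star x), ?_, ?_, ?_⟩
  · refine Tg_com h hS hv ?_ ?_
    · rw [star_smul, star_add, star_star, add_comm]; simp
    · rw [smul_mul_assoc, mul_smul_comm, add_mul, mul_add, hc, hcs]
  · refine Tg_com h hS hv ?_ ?_
    · rw [star_smul, star_sub, star_star, ← neg_sub x (star x), smul_neg, ← neg_smul]
      congr 1
      simp
      ring
    · rw [smul_mul_assoc, mul_smul_comm, sub_mul, mul_sub, hc, hcs]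
  · rw [smul_smul]
    have e2 : Complex.I * -(Complex.I / 2) = (1 / 2 : ℂ) := by
      have := Complex.I_mul_I
      linear_combination (-1 / 2) * this
    rw [e2, ← smul_add]
    have : x + star x + (x - star x) = (2 : ℂ) • x := by rw [two_smul]; abel
    rw [this, smul_smul]; norm_num

/-- commutators with a self-adjoint element that commutes with some `v ∈ S` -/
theorem Vc_adsa (h : TW τ) {G S : Set A} (hG : Gp G) (hS : Sp G S) {v : A} (hv : v ∈ S) {a : A}
    (ha : star a = a) (hc : a * v = v * a) {x : A} (hx : Vc τ G x) :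
    Vc τ G (a * x - x * a) := by
  have hd : HasDerivAt (fun t : ℝ => ex a t * x * ex a (-t))
      (Complex.I • a * x * 1 + 1 * x * (-(Complex.I • a))) 0 := by
    have h1 := ex_deriv a
    have h2 : HasDerivAt (fun t : ℝ => ex a (-t)) (-(Complex.I • a)) 0 := by
      have h3 : HasDerivAt (fun t : ℝ => ex a t) (Complex.I • a) (-(0 : ℝ)) := by
        rw [neg_zero]; exact h1
      have h5 := h3.scomp (0 : ℝ) (hasDerivAt_neg (0 : ℝ))
      rw [neg_one_smul] at h5
      exact h5
    have h4 := (h1.mul_const x).mul h2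
    simp only [ex_zero, neg_zero] at h4
    exact h4
  have h2 : Vc τ G (Complex.I • (a * x - x * a)) := by
    refine Vc_cl h fun ε hε => ?_
    have h1 := hd.isLittleO.def (half_pos hε)
    rw [Metric.eventually_nhds_iff] at h1
    obtain ⟨δ, hδ, H⟩ := h1
    have ht0 : (0 : ℝ) < δ / 2 := by positivity
    have h2 := H (y := δ / 2) (by rw [Real.dist_eq, sub_zero, abs_of_pos ht0]; linarith)
    simp only [sub_zero, ex_zero, neg_zero, mul_one, one_mul] at h2
    rw [Real.norm_eq_abs, abs_of_pos ht0] at h2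
    refine ⟨(((δ / 2)⁻¹ : ℝ) : ℂ) • (ex a (δ / 2) * x * ex a (-(δ / 2)) - x), ?_, ?_⟩
    · refine Vc_smul h hG (Vc_sub h hG ?_ hx) _
      rw [← star_ex ha]
      exact Vc_conj h hG hx (hS.com v hv _ (ex_uni ha _).1 (ex_uni ha _).2 (ex_comm hc _))
    · refine lt_of_le_of_lt (n2_le_norm h _) ?_
      rw [norm_sub_rev]
      have e : (((δ / 2)⁻¹ : ℝ) : ℂ) • (ex a (δ / 2) * x * ex a (-(δ / 2)) - x) -
          Complex.I • (a * x - x * a) = (((δ / 2)⁻¹ : ℝ) : ℂ) •
            (ex a (δ / 2) * x * ex a (-(δ / 2)) - x - (δ / 2) • (Complex.I • a * x +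
              x * -(Complex.I • a))) := by
        rw [smul_sub _ (ex a (δ / 2) * x * ex a (-(δ / 2)) - x)]
        congr 1
        rw [Complex.coe_smul, smul_smul, inv_mul_cancel₀ ht0.ne', one_smul, smul_mul_assoc,
          mul_neg, mul_smul_comm, ← sub_eq_add_neg, smul_sub]
      rw [e, norm_smul, Complex.norm_real, Real.norm_eq_abs, abs_of_pos (inv_pos.2 ht0)]
      calc (δ / 2)⁻¹ * _ ≤ (δ / 2)⁻¹ * (ε / 2 * (δ / 2)) :=
            mul_le_mul_of_nonneg_left h2 (inv_pos.2 ht0).le
        _ = ε / 2 := by field_simp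
        _ < ε := by linarith
  have h3 := Vc_smul h hG h2 (-Complex.I)
  rw [smul_smul] at h3
  have e : -Complex.I * Complex.I = 1 := by rw [neg_mul, Complex.I_mul_I, neg_neg]
  rwa [e, one_smul] at h3

theorem Vc_ad (h : TW τ) {G S : Set A} (hG : Gp G) (hS : Sp G S) {v : A} (hv : v ∈ S)
    {x : A} (hx : Vc τ G x) : Vc τ G (v * x - x * v) := by
  have h1 := hS.uni v hv
  have hsv : star v * v = v * star v := by rw [h1.1, h1.2]
  have ha := Vc_adsa h hG hS hv (a := (1 / 2 : ℂ) • (v + star v))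
    (by rw [star_smul, star_add, star_star, add_comm]; simp)
    (by rw [smul_mul_assoc, mul_smul_comm, add_mul, mul_add, hsv]) hx
  have hb := Vc_adsa h hG hS hv (a := (-(Complex.I / 2) : ℂ) • (v - star v))
    (by rw [star_smul, star_sub, star_star, ← neg_sub v (star v), smul_neg, ← neg_smul]
        congr 1
        simp
        ring)
    (by rw [smul_mul_assoc, mul_smul_comm, sub_mul, mul_sub, hsv]) hx
  have h3 := Vc_add h hG ha (Vc_smul h hG hb Complex.I)
  have e2 : Complex.I * -(Complex.I / 2) = (1 / 2 : ℂ) := by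
    have := Complex.I_mul_I
    linear_combination (-1 / 2) * this
  have e : v = (1 / 2 : ℂ) • (v + star v) + Complex.I • ((-(Complex.I / 2) : ℂ) • (v - star v)) := by
    rw [smul_smul, e2, ← smul_add]
    have : v + star v + (v - star v) = (2 : ℂ) • v := by rw [two_smul]; abel
    rw [this, smul_smul]; norm_num
  have e3 : ∀ p q : A, (p + Complex.I • q) * x - x * (p + Complex.I • q) =
      p * x - x * p + Complex.I • (q * x - x * q) := by
    intro p q
    rw [add_mul, mul_add, smul_mul_assoc, mul_smul_comm, smul_sub]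
    abel
  have e4 := e3 ((1 / 2 : ℂ) • (v + star v)) ((-(Complex.I / 2) : ℂ) • (v - star v))
  rw [← e] at e4
  rw [e4]
  exact h3

/-- left multiplication by `v ∈ S` -/
theorem Vc_left (h : TW τ) {G S : Set A} (hG : Gp G) (hS : Sp G S) {v : A} (hv : v ∈ S)
    {x : A} (hx : Vc τ G x) : Vc τ G (v * x) := by
  have h1 := hS.uni v hv
  obtain ⟨z, hz, -, hfix⟩ := exists_fixed h
    {y : A | Vc τ G y ∧ Vc τ G (v * (x - y)) ∧ ‖y‖ ≤ ‖x‖}
    ⟨x, hx, by rw [sub_self, mul_zero]; simpa using Vc_sub h hG hx hx, le_rfl⟩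
    (by
      intro y hy y' hy' a b ha hb hab
      refine ⟨?_, ?_, ?_⟩
      · have := Vc_add h hG (Vc_smul h hG hy.1 (a : ℂ)) (Vc_smul h hG hy'.1 (b : ℂ))
        rwa [Complex.coe_smul, Complex.coe_smul] at this
      · have := Vc_add h hG (Vc_smul h hG hy.2.1 (a : ℂ)) (Vc_smul h hG hy'.2.1 (b : ℂ))
        rw [Complex.coe_smul, Complex.coe_smul] at this
        have e : v * (x - (a • y + b • y')) = a • (v * (x - y)) + b • (v * (x - y')) := by
          rw [mul_sub, mul_sub, mul_sub, mul_add, smul_sub, smul_sub, mul_smul_comm,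
            mul_smul_comm]
          have : v * x = a • (v * x) + b • (v * x) := by rw [← add_smul, hab, one_smul]
          conv_lhs => rw [this]
          abel
        rw [e]
        exact this
      · have : ‖a • y + b • y'‖ ≤ a * ‖x‖ + b * ‖x‖ := by
          refine (norm_add_le _ _).trans ?_
          rw [norm_smul, norm_smul, Real.norm_of_nonneg ha, Real.norm_of_nonneg hb]
          exact add_le_add (mul_le_mul_of_nonneg_left hy.2.2 ha)
            (mul_le_mul_of_nonneg_left hy'.2.2 hb)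
        rw [← add_mul, hab, one_mul] at this
        exact this)
    ‖x‖ (fun y hy => hy.2.2)
  have hz1 : v * z * star v = z := by
    have := hfix ((LinearMap.mulRight ℂ (star v)).comp (LinearMap.mulLeft ℂ v)) ?_ ?_
    · simpa using this
    · intro y
      show n2 τ (v * y * star v) = n2 τ y
      rw [n2_uni_right h (by rw [star_star]; exact h1.1), n2_uni_left h h1.1]
    · rintro y ⟨hy1, hy2, hy3⟩
      show Vc τ G (v * y * star v) ∧ Vc τ G (v * (x - v * y * star v)) ∧ ‖v * y * star v‖ ≤ ‖x‖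
      have hvn : ‖v‖ ≤ 1 := norm_le_of_uni h1.1
      refine ⟨Vc_conj h hG hy1 (hS.memG hv), ?_, ?_⟩
      · have e : v * (x - v * y * star v) =
            v * (x - y) - v * (v * y - y * v) * star v := by
          have t1 : v * (v * y - y * v) * star v = v * (v * y) * star v - v * y := by
            rw [mul_sub, sub_mul, ← mul_assoc v y v, mul_assoc (v * y) v (star v), h1.2, mul_one]
          have t2 : v * (v * y * star v) = v * (v * y) * star v := (mul_assoc _ _ _).symm
          rw [t1, mul_sub, mul_sub, t2]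
          abel
        rw [e]
        exact Vc_sub h hG hy2 (Vc_conj h hG (Vc_ad h hG hS hv hy1) (hS.memG hv))
      · calc ‖v * y * star v‖ ≤ ‖v * y‖ * ‖star v‖ := norm_mul_le _ _
          _ ≤ ‖v‖ * ‖y‖ * ‖star v‖ := mul_le_mul_of_nonneg_right (norm_mul_le _ _) (norm_nonneg _)
          _ ≤ 1 * ‖x‖ * 1 := by
              rw [norm_star]
              gcongr
          _ = ‖x‖ := by ring
  have hzc : v * z = z * v := by
    calc v * z = v * z * (star v * v) := by rw [h1.1, mul_one]
      _ = (v * z * star v) * v := by simp only [mul_assoc]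
      _ = z * v := by rw [hz1]
  have h2 : Vc τ G (v * (x - z)) := by
    refine Vc_cl h fun ε hε => ?_
    obtain ⟨y, hy, hzy⟩ := hz ε hε
    refine ⟨v * (x - y), hy.2.1, ?_⟩
    have e : v * (x - z) - v * (x - y) = v * (y - z) := by
      rw [← mul_sub]; congr 1; abel
    rw [e, n2_uni_left h h1.1, n2_sub_comm]
    exact hzy
  have h3 : Vc τ G (v * z) := Vc_com h hS hv (by rw [mul_assoc, ← hzc])
  have e : v * x = v * (x - z) + v * z := by rw [← mul_add, sub_add_cancel]
  rw [e]
  exact Vc_add h hG h2 h3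

theorem Vc_all (h : TW τ) {G S : Set A} (hG : Gp G) (hS : Sp G S) (hne : S.Nonempty)
    (hgen : ∀ x : A, x ∈ Cl τ (StarAlgebra.adjoin ℂ S : Set A)) (x : A) : Vc τ G x := by
  obtain ⟨v0, hv0⟩ := hne
  have h1 : Vc τ G 1 := Vc_com h hS hv0 (by rw [one_mul, mul_one])
  have key : ∀ y ∈ StarAlgebra.adjoin ℂ S,
      (∀ x, Vc τ G x → Vc τ G (y * x)) ∧ ∀ x, Vc τ G x → Vc τ G (star y * x) := by
    intro y hy
    induction hy using StarAlgebra.adjoin_induction with
    | mem y hy => exact ⟨fun x hx => Vc_left h hG hS hy hx,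
        fun x hx => Vc_left h hG hS (hS.str y hy) hx⟩
    | algebraMap r =>
      refine ⟨fun x hx => ?_, fun x hx => ?_⟩
      · rw [Algebra.algebraMap_eq_smul_one, smul_mul_assoc, one_mul]; exact Vc_smul h hG hx _
      · rw [Algebra.algebraMap_eq_smul_one, star_smul, star_one, smul_mul_assoc, one_mul]
        exact Vc_smul h hG hx _
    | add y z _ _ hy hz =>
      refine ⟨fun x hx => ?_, fun x hx => ?_⟩
      · rw [add_mul]; exact Vc_add h hG (hy.1 x hx) (hz.1 x hx)
      · rw [star_add, add_mul]; exact Vc_add h hG (hy.2 x hx) (hz.2 x hx)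
    | mul y z _ _ hy hz =>
      refine ⟨fun x hx => ?_, fun x hx => ?_⟩
      · rw [mul_assoc]; exact hy.1 _ (hz.1 x hx)
      · rw [star_mul, mul_assoc]; exact hz.2 _ (hy.2 x hx)
    | star y _ hy => exact ⟨hy.2, fun x hx => by rw [star_star]; exact hy.1 x hx⟩
  refine Vc_cl h fun ε hε => ?_
  obtain ⟨y, hy, hxy⟩ := hgen x ε hε
  refine ⟨y, ?_, hxy⟩
  have := (key y hy).1 1 h1
  rwa [mul_one] at this

theorem Tg_all (h : TW τ) {G S : Set A} (hG : Gp G) (hS : Sp G S) (hne : S.Nonempty)
    (hgen : ∀ x : A, x ∈ Cl τ (StarAlgebra.adjoin ℂ S : Set A)) (x : A) (hx : star x = x) :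
    Tg τ G x := by
  obtain ⟨a, b, ha, hb, hab⟩ := Vc_all h hG hS hne hgen x
  have h1 : star x = a - Complex.I • b := by
    rw [hab, star_add, star_smul, ha.1, hb.1, Complex.star_def, Complex.conj_I, neg_smul,
      sub_eq_add_neg]
  have h2 : x = a := by
    have h5 : x = a - Complex.I • b := hx.symm.trans h1
    have h6 : x + x = (a + Complex.I • b) + (a - Complex.I • b) := by rw [← hab, ← h5]
    have h3 : (2 : ℂ) • x = (2 : ℂ) • a := by
      rw [two_smul, two_smul, h6]
      abel
    have h4 := congrArg (fun y => (1 / 2 : ℂ) • y) h3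
    simpa [smul_smul] using h4
  rw [h2]; exact ha

/-- exponentials of tangent vectors are in the closure of `G` -/
theorem Tg_exp (h : TW τ) {G : Set A} (hG : Gp G) {x : A} (hx : Tg τ G x) (ε : ℝ) (hε : 0 < ε) :
    ∃ k ∈ G, n2 τ (ex x 1 - k) < ε := by
  obtain ⟨δ1, hδ1, H1⟩ := hx.2 (ε / 4) (by positivity)
  have h1 := (ex_deriv x).isLittleO.def (c := ε / 4) (by positivity)
  rw [Metric.eventually_nhds_iff] at h1
  obtain ⟨δ2, hδ2, H2⟩ := h1
  obtain ⟨n, hn⟩ := exists_nat_gt (max (1 / δ1) (1 / δ2))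
  have hn0 : (0 : ℝ) < n := lt_of_le_of_lt (le_max_of_le_left (by positivity)) hn
  have ht0 : (0 : ℝ) < 1 / n := by positivity
  have ht1 : 1 / (n : ℝ) < δ1 := by
    have := (le_max_left _ _).trans_lt hn
    rw [div_lt_iff₀ hδ1] at this
    rw [div_lt_iff₀ hn0]; linarith
  have ht2 : 1 / (n : ℝ) < δ2 := by
    have := (le_max_right _ _).trans_lt hn
    rw [div_lt_iff₀ hδ2] at this
    rw [div_lt_iff₀ hn0]; linarith
  obtain ⟨k, hk, hkx⟩ := H1 (1 / n) ht0 ht1
  have h2 := H2 (y := 1 / (n : ℝ)) (by rw [Real.dist_eq, sub_zero, abs_of_pos ht0]; exact ht2)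
  simp only [sub_zero, ex_zero] at h2
  rw [Real.norm_eq_abs, abs_of_pos ht0] at h2
  have e : (Complex.I * ((1 / (n : ℝ) : ℝ) : ℂ)) • x = (1 / (n : ℝ)) • (Complex.I • x) := by
    rw [mul_comm, mul_smul]
    exact (Complex.coe_smul _ _)
  rw [e] at hkx
  have h3 : n2 τ (ex x (1 / n) - k) ≤ ε / 2 * (1 / n) := by
    have e2 : ex x (1 / n) - k = (ex x (1 / n) - 1 - (1 / (n : ℝ)) • (Complex.I • x)) -
        (k - 1 - (1 / (n : ℝ)) • (Complex.I • x)) := by abel
    rw [e2]
    refine (h.n2_sub_le _ _).trans ?_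
    have := (n2_le_norm h (ex x (1 / n) - 1 - (1 / (n : ℝ)) • (Complex.I • x))).trans h2
    linarith
  have hpow : ∀ m : ℕ, k ^ m ∈ G ∧ n2 τ (ex x (m * (1 / n)) - k ^ m) ≤ m * (ε / 2 * (1 / n)) := by
    intro m
    induction m with
    | zero =>
      refine ⟨by rw [pow_zero]; exact hG.one, ?_⟩
      simp [ex_zero, n2_zero]
    | succ m ih =>
      refine ⟨by rw [pow_succ]; exact hG.mul _ ih.1 _ hk, ?_⟩
      have e3 : ex x (((m + 1 : ℕ) : ℝ) * (1 / n)) - k ^ (m + 1) =
          ex x (m * (1 / n)) * (ex x (1 / n) - k) + (ex x (m * (1 / n)) - k ^ m) * k := by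
        have e4 : ((m + 1 : ℕ) : ℝ) * (1 / n) = m * (1 / n) + 1 / n := by push_cast; ring
        rw [e4, ex_add, pow_succ]
        noncomm_ring
      rw [e3]
      refine (h.n2_add_le _ _).trans ?_
      rw [n2_uni_left h (ex_uni hx.1 _).1, n2_uni_right h (hG.uni k hk).2]
      push_cast
      linarith [ih.2]
  refine ⟨k ^ n, (hpow n).1, ?_⟩
  have h4 := (hpow n).2
  have e5 : (n : ℝ) * (1 / n) = 1 := by field_simp
  rw [e5] at h4
  have e6 : (n : ℝ) * (ε / 2 * (1 / n)) = ε / 2 := by field_simp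
  rw [e6] at h4
  linarith

/-- **Core theorem.** -/
theorem core (h : TW τ) {G S : Set A} (hG : Gp G) (hS : Sp G S) (hne : S.Nonempty)
    (hgen : ∀ x : A, x ∈ Cl τ (StarAlgebra.adjoin ℂ S : Set A)) (x : A) (hx : star x = x)
    (ε : ℝ) (hε : 0 < ε) : ∃ k ∈ G, n2 τ (ex x 1 - k) < ε :=
  Tg_exp h hG (Tg_all h hG hS hne hgen x hx) ε hε

end Pool.Agent.H917R3.DO
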