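import Mathlib
import Pool.Agent.H917R3.DO.Core2
import Pool.Agent.H80R3.SO.AC
import Pool.Agent.H80R3.SO.CL
import Pool.Agent.H80R3.SO.TR
import Pool.Agent.H80R3.SO.CH
import Pool.Agent.H80R3.SO.FS

set_option autoImplicit false

open scoped ComplexOrder Topology
open Filter

noncomputable section

namespace Pool.Agent.H917R3.DO

open Pool.Agent.H467F Pool.Agent.H80R3.SO
open Pool.Agent.Helper278 (PVM)

variable {A : Type} [CStarAlgebra A] {τ : A →ₗ[ℂ] ℂ}

/-- the algebra homomorphism of a PVM -/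
theorem pvm_exp {J : ℕ} {e : Fin J → A} (he : PVM e) (c : Fin J → ℂ) :
    NormedSpace.exp (∑ j, c j • e j) = ∑ j, Complex.exp (c j) • e j := by
  have hmul : ∀ c d : Fin J → ℂ, (∑ j, (c * d) j • e j) = (∑ j, c j • e j) * ∑ j, d j • e j := by
    intro c d
    rw [Finset.sum_mul_sum]
    refine Finset.sum_congr rfl fun i _ => ?_
    rw [Finset.sum_eq_single i]
    · rw [smul_mul_smul_comm, he.idem]; rfl
    · intro j _ hj
      rw [smul_mul_smul_comm, he.orth i j (Ne.symm hj), smul_zero]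
    · intro hi; exact absurd (Finset.mem_univ i) hi
  let φ : (Fin J → ℂ) →ₐ[ℂ] A := AlgHom.ofLinearMap
    { toFun := fun c => ∑ j, c j • e j
      map_add' := fun c d => by
        rw [← Finset.sum_add_distrib]
        exact Finset.sum_congr rfl fun j _ => by rw [Pi.add_apply, add_smul]
      map_smul' := fun z c => by
        rw [RingHom.id_apply, Finset.smul_sum]
        exact Finset.sum_congr rfl fun j _ => by rw [Pi.smul_apply, smul_assoc] }
    (by
      show ∑ j, (1 : Fin J → ℂ) j • e j = 1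
      rw [← he.sum]
      exact Finset.sum_congr rfl fun j _ => by rw [Pi.one_apply, one_smul])
    (fun c d => hmul c d)
  have hφ : ∀ c, φ c = ∑ j, c j • e j := fun _ => rfl
  have hcont : Continuous φ := by
    have : Continuous (fun c : Fin J → ℂ => ∑ j, c j • e j) := by fun_prop
    exact this
  have h1 : NormedSpace.exp (φ c) = φ (NormedSpace.exp c) := by
    let +nondep : NormedAlgebra ℚ A := .restrictScalars ℚ ℂ A
    exact (NormedSpace.map_exp φ hcont c).symm
  rw [hφ, hφ] at h1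
  rw [h1]
  refine Finset.sum_congr rfl fun j _ => ?_
  congr 1
  rw [Pi.coe_exp, Complex.exp_eq_exp_ℂ]

theorem haar_conj (h : TW τ) {u : unitary A} (hu : Haar τ u) (g : unitary A) :
    Haar τ (g * u * star g) := by
  intro k hk
  have e : (g * u * star g) ^ k = g * u ^ k * star g := by
    have h1 : star g = g⁻¹ := rfl
    rw [h1, conj_zpow]
  rw [e]
  show τ ((g : A) * ((u ^ k : unitary A) : A) * star (g : A)) = 0
  rw [h.comm, ← mul_assoc, Unitary.coe_star_mul_self, one_mul]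
  exact hu k hk

theorem haar_star (_ : TW τ) {u : unitary A} (hu : Haar τ u) : Haar τ (star u) := by
  intro k hk
  have e : (star u) ^ k = u ^ (-k) := by
    have h1 : star u = u⁻¹ := rfl
    rw [h1, inv_zpow, zpow_neg]
  rw [e]
  exact hu (-k) (by omega)

theorem R_comm {u v : unitary A} (huv : (u : A) * v = v * u) : R τ 0 u v := by
  intro k
  refine ⟨fun i => if i = 0 then u else v, rfl, rfl, fun i h1 h0 => absurd h0 (by omega),
    fun i hi => ?_⟩
  obtain rfl : i = 0 := by omega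
  simp only [zero_add, if_true, one_ne_zero, if_false]
  rw [huv, sub_self, n2_zero]
  positivity

/-- the orbit, in terms of `R` -/
def Ob (τ : A →ₗ[ℂ] ℂ) (u v : unitary A) : Prop := Haar τ v ∧ ∃ m, R τ m u v

/-- the stabiliser of the orbit of `u` -/
def Gs (τ : A →ₗ[ℂ] ℂ) (u : unitary A) : Set A :=
  {x | ∃ g : unitary A, (g : A) = x ∧ ∃ m, R τ m u (g * u * star g)}

theorem conj_conj (g k u : unitary A) : g * (k * u * star k) * star g = (g * k) * u * star (g * k) := by
  rw [star_mul]; simp only [mul_assoc]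

theorem gp_Gs (h : TW τ) {u : unitary A} (hu : Haar τ u) : Gp (Gs τ u) := by
  refine ⟨?_, ?_, ?_, ?_⟩
  · rintro _ ⟨g, rfl, -⟩
    exact ⟨Unitary.coe_star_mul_self g, Unitary.coe_mul_star_self g⟩
  · refine ⟨1, rfl, 0, ?_⟩
    rw [one_mul, star_one, mul_one]
    exact R_comm rfl
  · rintro _ ⟨g, rfl, m, hm⟩ _ ⟨k, rfl, l, hl⟩
    refine ⟨g * k, rfl, m + 1 + l, ?_⟩
    have h1 := p_TR3 A τ h l g _ _ hl
    rw [conj_conj] at h1
    exact p_TR2 A τ h m l _ _ _ (haar_conj h hu g) hm h1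
  · rintro _ ⟨g, rfl, m, hm⟩
    refine ⟨star g, rfl, m, ?_⟩
    have h1 := p_TR3 A τ h m (star g) _ _ hm
    rw [conj_conj, Unitary.star_mul_self, star_one, one_mul, mul_one] at h1
    exact p_TR1 A τ h m _ _ h1

theorem sp_Gs (h : TW τ) {u : unitary A} (hu : Haar τ u) :
    Sp (Gs τ u) ((fun v : unitary A => (v : A)) '' {v | Ob τ u v}) := by
  refine ⟨?_, ?_, ?_⟩
  · rintro _ ⟨v, -, rfl⟩
    exact ⟨Unitary.coe_star_mul_self v, Unitary.coe_mul_star_self v⟩
  · rintro _ ⟨v, ⟨hv, m, hm⟩, rfl⟩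
    refine ⟨star v, ⟨haar_star h hv, m + 1 + 0, ?_⟩, rfl⟩
    refine p_TR2 A τ h m 0 _ _ _ hv hm (R_comm ?_)
    show (v : A) * star (v : A) = star (v : A) * v
    rw [show (v : A) * star (v : A) = 1 from Unitary.coe_mul_star_self v,
      show star (v : A) * (v : A) = 1 from Unitary.coe_star_mul_self v]
  · rintro _ ⟨v, ⟨hv, m, hm⟩, rfl⟩ x hx1 hx2 hc
    obtain ⟨g, rfl⟩ : ∃ g : unitary A, (g : A) = x := ⟨⟨x, Unitary.mem_iff.2 ⟨hx1, hx2⟩⟩, rfl⟩
    refine ⟨g, rfl, m + 1 + m, ?_⟩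
    have e : g * v * star g = v := by
      have hc' : g * v = v * g := Subtype.ext hc
      rw [hc', mul_assoc, Unitary.mul_star_self, mul_one]
    have h1 := p_TR3 A τ h m g _ _ hm
    rw [e] at h1
    exact p_TR2 A τ h m m _ _ _ hv hm (p_TR1 A τ h m _ _ h1)

/-- the stabiliser is dense in the unitary group -/
theorem Gs_dense (hF : Fac τ) {u : unitary A} (hu : Haar τ u)
    (hgen : ∀ x : A, x ∈ Cl τ (StarAlgebra.adjoin ℂ
      ((fun v : unitary A => (v : A)) '' {v | Ob τ u v}) : Set A))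
    (g : unitary A) (ε : ℝ) (hε : 0 < ε) :
    ∃ k : unitary A, (∃ m, R τ m u (k * u * star k)) ∧ n2 τ ((g : A) - k) < ε := by
  have h := hF.tw
  obtain ⟨J, hJ⟩ := exists_nat_gt ((4 / ε) ^ 2)
  have hJ0 : (0 : ℝ) < J := lt_of_le_of_lt (by positivity) hJ
  have hJ1 : 1 ≤ J := by exact_mod_cast hJ0
  obtain ⟨e, he, hge, -⟩ := p_FS A τ hF J hJ1 g
  have hsq : 2 / Real.sqrt J < ε / 2 := by
    have h1 : 4 / ε < Real.sqrt J := Real.lt_sqrt_of_sq_lt hJ
    have h2 : 0 < Real.sqrt J := Real.sqrt_pos.2 hJ0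
    rw [div_lt_iff₀ hε] at h1
    rw [div_lt_iff₀ h2]
    linarith
  obtain ⟨x, hx⟩ : ∃ x : A, x = ∑ j : Fin J, (((2 * Real.pi * (j : ℕ) / J : ℝ)) : ℂ) • e j := ⟨_, rfl⟩
  have hxs : star x = x := by
    rw [hx, star_sum]
    refine Finset.sum_congr rfl fun j _ => ?_
    rw [star_smul, he.star_eq, Complex.star_def, Complex.conj_ofReal]
  have hex : ex x 1 = ∑ j : Fin J, rt J (j : ℕ) • e j := by
    unfold ex
    rw [one_smul, hx, Finset.smul_sum]
    simp only [smul_smul]
    rw [pvm_exp he]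
    refine Finset.sum_congr rfl fun j _ => ?_
    rw [rt, mul_comm]
  obtain ⟨k, ⟨g', rfl, m, hm⟩, hk⟩ := core h (gp_Gs h hu) (sp_Gs h hu)
    ⟨_, u, ⟨hu, 0, R_comm rfl⟩, rfl⟩ hgen x hxs (ε / 2) (by positivity)
  refine ⟨g', ⟨m, hm⟩, ?_⟩
  rw [hex] at hk
  have h3 := h.n2_tri (g : A) (∑ j : Fin J, rt J (j : ℕ) • e j) g'
  linarith

/-- the orbit is dense in the set of Haar unitaries -/
theorem Ob_dense (hF : Fac τ) {u : unitary A} (hu : Haar τ u)
    (hgen : ∀ x : A, x ∈ Cl τ (StarAlgebra.adjoin ℂ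
      ((fun v : unitary A => (v : A)) '' {v | Ob τ u v}) : Set A))
    (v : unitary A) (hv : Haar τ v) (ε : ℝ) (hε : 0 < ε) :
    ∃ w : unitary A, Ob τ u w ∧ n2 τ ((v : A) - w) < ε := by
  have h := hF.tw
  obtain ⟨g, hg⟩ := p_AC p_FS A τ hF u v hu hv (ε / 2) (by positivity)
  obtain ⟨k, hk, hgk⟩ := Gs_dense hF hu hgen g (ε / 4) (by positivity)
  refine ⟨k * u * star k, ⟨haar_conj h hu k, hk⟩, ?_⟩
  have h1 : n2 τ (((g * u * star g : unitary A) : A) - ((k * u * star k : unitary A) : A)) < ε / 2 := by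
    have e : ((g * u * star g : unitary A) : A) - ((k * u * star k : unitary A) : A) =
        (((g : A) - k) * u) * star (g : A) + ((k : A) * u) * star ((g : A) - k) := by
      show (g : A) * u * star (g : A) - (k : A) * u * star (k : A) = _
      rw [star_sub]
      noncomm_ring
    rw [e]
    refine lt_of_le_of_lt (h.n2_add_le _ _) ?_
    have hku : star ((k : A) * u) * ((k : A) * u) = 1 := by
      rw [star_mul, mul_assoc, ← mul_assoc (star (k : A)), Unitary.coe_star_mul_self, one_mul,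
        Unitary.coe_star_mul_self]
    rw [n2_uni_right h (by rw [star_star]; exact Unitary.coe_star_mul_self g),
      n2_uni_right h (Unitary.coe_mul_star_self u), n2_uni_left h hku, h.n2_star]
    linarith
  have h2 := h.n2_tri (v : A) ((g * u * star g : unitary A) : A) ((k * u * star k : unitary A) : A)
  rw [n2_sub_comm τ (v : A) ((g * u * star g : unitary A) : A)] at h2
  linarith

/-- finite diameter -/
theorem Ob_all (hF : Fac τ) {u : unitary A} (hu : Haar τ u)
    (hgen : ∀ x : A, x ∈ Cl τ (StarAlgebra.adjoin ℂ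
      ((fun v : unitary A => (v : A)) '' {v | Ob τ u v}) : Set A))
    (K : ℕ) (hK : ∀ v, Ob τ u v → R τ K u v) (v : unitary A) (hv : Haar τ v) : R τ K u v := by
  have h := hF.tw
  refine p_CL A τ h K u v fun ε hε => ?_
  obtain ⟨w, hw, hvw⟩ := Ob_dense hF hu hgen v hv ε hε
  exact ⟨u, w, by rw [sub_self, n2_zero]; exact hε, hvw, hK w hw⟩

end Pool.Agent.H917R3.DO
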