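import Mathlib
import Pool.Agent.H917R3.DO.Main

set_option autoImplicit false

open scoped ComplexOrder Topology
open Filter

noncomputable section

namespace Pool.Agent.H917R3.DO

open Pool.Agent.H467F Pool.Agent.H80R3.SO

variable {A : Type} [CStarAlgebra A] {τ : A →ₗ[ℂ] ℂ}

/-- the Haar unitaries as a set of elements -/
def HS (τ : A →ₗ[ℂ] ℂ) : Set A := (fun v : unitary A => (v : A)) '' {v | Haar τ v}

/-- the algebra generated by the Haar unitaries -/
def MM (τ : A →ₗ[ℂ] ℂ) (x : A) : Prop := x ∈ Cl τ (StarAlgebra.adjoin ℂ (HS τ) : Set A)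

theorem MM_cl (h : TW τ) {x : A} (hx : ∀ ε : ℝ, 0 < ε → ∃ y, MM τ y ∧ n2 τ (x - y) < ε) :
    MM τ x := by
  intro ε hε
  obtain ⟨y, hy, hxy⟩ := hx (ε / 2) (by positivity)
  obtain ⟨z, hz, hyz⟩ := hy (ε / 2) (by positivity)
  exact ⟨z, hz, by linarith [h.n2_tri x y z]⟩

theorem MM_of_mem (τ : A →ₗ[ℂ] ℂ) {x : A} (hx : x ∈ StarAlgebra.adjoin ℂ (HS τ)) : MM τ x :=
  fun ε hε => ⟨x, hx, by rw [sub_self, n2_zero]; exact hε⟩

theorem MM_add (h : TW τ) {x y : A} (hx : MM τ x) (hy : MM τ y) : MM τ (x + y) := by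
  intro ε hε
  obtain ⟨x', hx', h1⟩ := hx (ε / 2) (by positivity)
  obtain ⟨y', hy', h2⟩ := hy (ε / 2) (by positivity)
  refine ⟨x' + y', add_mem hx' hy', ?_⟩
  have e : x + y - (x' + y') = (x - x') + (y - y') := by abel
  rw [e]
  linarith [h.n2_add_le (x - x') (y - y')]

theorem MM_smul {x : A} (hx : MM τ x) (c : ℂ) : MM τ (c • x) := by
  intro ε hε
  obtain ⟨x', hx', h1⟩ := hx (ε / (‖c‖ + 1)) (by positivity)
  refine ⟨c • x', SMulMemClass.smul_mem c hx', ?_⟩
  rw [← smul_sub, n2_smul]
  have h2 : 0 ≤ n2 τ (x - x') := n2_nonneg _ _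
  rw [lt_div_iff₀ (by positivity)] at h1
  nlinarith

theorem MM_sub (h : TW τ) {x y : A} (hx : MM τ x) (hy : MM τ y) : MM τ (x - y) := by
  have := MM_add h hx (MM_smul hy (-1))
  rwa [neg_one_smul, ← sub_eq_add_neg] at this

theorem MM_mul (h : TW τ) {x y : A} (hx : MM τ x) (hy : MM τ y) : MM τ (x * y) := by
  intro ε hε
  obtain ⟨y', hy', h2⟩ := hy (ε / 2 / (‖x‖ + 1)) (by positivity)
  obtain ⟨x', hx', h1⟩ := hx (ε / 2 / (‖y'‖ + 1)) (by positivity)
  refine ⟨x' * y', mul_mem hx' hy', ?_⟩
  have e : x * y - x' * y' = x * (y - y') + (x - x') * y' := by noncomm_ring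
  rw [e]
  have h3 := (n2_mul_le h x (y - y')).1
  have h4 := (n2_mul_le h y' (x - x')).2
  have h5 := n2_nonneg τ (x - x')
  have h6 := n2_nonneg τ (y - y')
  rw [lt_div_iff₀ (by positivity)] at h1 h2
  have := h.n2_add_le (x * (y - y')) ((x - x') * y')
  nlinarith [norm_nonneg x, norm_nonneg y']

theorem MM_conj (h : TW τ) {x : A} (hx : MM τ x) (g : unitary A) :
    MM τ ((g : A) * x * star (g : A)) := by
  have key : ∀ y ∈ StarAlgebra.adjoin ℂ (HS τ), (g : A) * y * star (g : A) ∈
      StarAlgebra.adjoin ℂ (HS τ) := by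
    intro y hy
    have hg := Unitary.coe_star_mul_self g
    induction hy using StarAlgebra.adjoin_induction with
    | mem y hy =>
      obtain ⟨v, hv, rfl⟩ := hy
      exact StarAlgebra.subset_adjoin ℂ _ ⟨g * v * star g, haar_conj h hv g, rfl⟩
    | algebraMap r =>
      rw [Algebra.algebraMap_eq_smul_one, mul_smul_comm, mul_one, smul_mul_assoc,
        show (g : A) * star (g : A) = 1 from Unitary.coe_mul_star_self g]
      exact SMulMemClass.smul_mem r (one_mem _)
    | add y z _ _ hy hz => rw [mul_add, add_mul]; exact add_mem hy hz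
    | mul y z _ _ hy hz =>
      have e : (g : A) * (y * z) * star (g : A) =
          ((g : A) * y * star (g : A)) * ((g : A) * z * star (g : A)) := by
        calc (g : A) * (y * z) * star (g : A) = (g : A) * y * (1 * z) * star (g : A) := by
              rw [one_mul]; simp only [mul_assoc]
          _ = (g : A) * y * ((star (g : A) * g) * z) * star (g : A) := by rw [hg]
          _ = _ := by simp only [mul_assoc]
      rw [e]; exact mul_mem hy hz
    | star y _ hy =>
      have e : (g : A) * star y * star (g : A) = star ((g : A) * y * star (g : A)) := by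
        rw [star_mul, star_mul, star_star, mul_assoc]
      rw [e]; exact star_mem hy
  intro ε hε
  obtain ⟨y, hy, hxy⟩ := hx ε hε
  refine ⟨_, key y hy, ?_⟩
  have e : (g : A) * x * star (g : A) - (g : A) * y * star (g : A) =
      (g : A) * (x - y) * star (g : A) := by rw [mul_sub, sub_mul]
  rw [e, n2_uni_right h (by rw [star_star]; exact Unitary.coe_star_mul_self g),
    n2_uni_left h (Unitary.coe_star_mul_self g)]
  exact hxy

theorem MM_adsa (h : TW τ) {a : A} (ha : star a = a) {x : A} (hx : MM τ x) :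
    MM τ (a * x - x * a) := by
  have hd : HasDerivAt (fun t : ℝ => ex a t * x * ex a (-t))
      (Complex.I • a * x * 1 + 1 * x * (-(Complex.I • a))) 0 := by
    have h1 := ex_deriv a
    have h2 : HasDerivAt (fun t : ℝ => ex a (-t)) (-(Complex.I • a)) 0 := by
      have h3 : HasDerivAt (fun t : ℝ => ex a t) (Complex.I • a) (-(0 : ℝ)) := by
        rw [neg_zero]; exact h1
      have h5 := h3.scomp (0 : ℝ) (hasDerivAt_neg (0 : ℝ))
      rw [neg_one_smul] at h5
      exact h5
    have h4 := (h1.mul_const x).mul h2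
    simp only [ex_zero, neg_zero] at h4
    exact h4
  have h2 : MM τ (Complex.I • (a * x - x * a)) := by
    refine MM_cl h fun ε hε => ?_
    have h1 := hd.isLittleO.def (half_pos hε)
    rw [Metric.eventually_nhds_iff] at h1
    obtain ⟨δ, hδ, H⟩ := h1
    have ht0 : (0 : ℝ) < δ / 2 := by positivity
    have h2 := H (y := δ / 2) (by rw [Real.dist_eq, sub_zero, abs_of_pos ht0]; linarith)
    simp only [sub_zero, ex_zero, neg_zero, mul_one, one_mul] at h2
    rw [Real.norm_eq_abs, abs_of_pos ht0] at h2
    refine ⟨(((δ / 2)⁻¹ : ℝ) : ℂ) • (ex a (δ / 2) * x * ex a (-(δ / 2)) - x), ?_, ?_⟩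
    · refine MM_smul (MM_sub h ?_ hx) _
      rw [← star_ex ha]
      exact MM_conj h hx ⟨ex a (δ / 2), Unitary.mem_iff.2 (ex_uni ha _)⟩
    · refine lt_of_le_of_lt (n2_le_norm h _) ?_
      rw [norm_sub_rev]
      have e : (((δ / 2)⁻¹ : ℝ) : ℂ) • (ex a (δ / 2) * x * ex a (-(δ / 2)) - x) -
          Complex.I • (a * x - x * a) = (((δ / 2)⁻¹ : ℝ) : ℂ) •
            (ex a (δ / 2) * x * ex a (-(δ / 2)) - x - (δ / 2) • (Complex.I • a * x +
              x * -(Complex.I • a))) := by
        rw [smul_sub _ (ex a (δ / 2) * x * ex a (-(δ / 2)) - x)]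
        congr 1
        rw [Complex.coe_smul, smul_smul, inv_mul_cancel₀ ht0.ne', one_smul, smul_mul_assoc,
          mul_neg, mul_smul_comm, ← sub_eq_add_neg, smul_sub]
      rw [e, norm_smul, Complex.norm_real, Real.norm_eq_abs, abs_of_pos (inv_pos.2 ht0)]
      calc (δ / 2)⁻¹ * _ ≤ (δ / 2)⁻¹ * (ε / 2 * (δ / 2)) :=
            mul_le_mul_of_nonneg_left h2 (inv_pos.2 ht0).le
        _ = ε / 2 := by field_simp
        _ < ε := by linarith
  have h3 := MM_smul h2 (-Complex.I)
  rw [smul_smul] at h3
  have e : -Complex.I * Complex.I = 1 := by rw [neg_mul, Complex.I_mul_I, neg_neg]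
  rwa [e, one_smul] at h3

theorem MM_ad (h : TW τ) (v : A) {x : A} (hx : MM τ x) : MM τ (v * x - x * v) := by
  have ha := MM_adsa h (a := (1 / 2 : ℂ) • (v + star v))
    (by rw [star_smul, star_add, star_star, add_comm]; simp) hx
  have hb := MM_adsa h (a := (-(Complex.I / 2) : ℂ) • (v - star v))
    (by rw [star_smul, star_sub, star_star, ← neg_sub v (star v), smul_neg, ← neg_smul]
        congr 1
        simp
        ring) hx
  have h3 := MM_add h ha (MM_smul hb Complex.I)
  have e2 : Complex.I * -(Complex.I / 2) = (1 / 2 : ℂ) := by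
    have := Complex.I_mul_I
    linear_combination (-1 / 2) * this
  have e : v = (1 / 2 : ℂ) • (v + star v) + Complex.I • ((-(Complex.I / 2) : ℂ) • (v - star v)) := by
    rw [smul_smul, e2, ← smul_add]
    have : v + star v + (v - star v) = (2 : ℂ) • v := by rw [two_smul]; abel
    rw [this, smul_smul]; norm_num
  have e3 : ∀ p q : A, (p + Complex.I • q) * x - x * (p + Complex.I • q) =
      p * x - x * p + Complex.I • (q * x - x * q) := by
    intro p q
    rw [add_mul, mul_add, smul_mul_assoc, mul_smul_comm, smul_sub]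
    abel
  have e4 := e3 ((1 / 2 : ℂ) • (v + star v)) ((-(Complex.I / 2) : ℂ) • (v - star v))
  rw [← e] at e4
  rw [e4]
  exact h3

/-- the elements `b` with `N b N` in the algebra -/
def JJ (τ : A →ₗ[ℂ] ℂ) (b : A) : Prop := ∀ x z : A, MM τ (x * b * z)

theorem JJ_comm (h : TW τ) {m y : A} (hm : MM τ m) (hy : MM τ y) : JJ τ (m * y - y * m) := by
  -- `x [m, y] = [m, x y] - [m, x] y`
  have h1 : ∀ x : A, MM τ (x * (m * y - y * m)) := by
    intro x
    have a1 := MM_ad h (x * y) hm
    have a2 := MM_mul h (MM_ad h x hm) hy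
    have a3 := MM_sub h a2 a1
    have e : (x * m - m * x) * y - (x * y * m - m * (x * y)) = x * (m * y - y * m) := by
      noncomm_ring
    rwa [e] at a3
  intro x z
  -- `x a z = z x a + [x a, z]`
  have a1 := h1 (z * x)
  have a2 := MM_ad h z (h1 x)
  have a3 := MM_sub h a1 a2
  have e : z * x * (m * y - y * m) - (z * (x * (m * y - y * m)) - x * (m * y - y * m) * z) =
      x * (m * y - y * m) * z := by noncomm_ring
  rwa [e] at a3

theorem JJ_left {b : A} (hb : JJ τ b) (c : A) : JJ τ (c * b) := by
  intro x z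
  have := hb (x * c) z
  rwa [mul_assoc x c b] at this

theorem JJ_cl (h : TW τ) {b : A} (hb : ∀ ε : ℝ, 0 < ε → ∃ c, JJ τ c ∧ n2 τ (b - c) < ε) : JJ τ b := by
  intro x z
  refine MM_cl h fun ε hε => ?_
  obtain ⟨c, hc, hbc⟩ := hb (ε / (‖x‖ * ‖z‖ + 1)) (by positivity)
  refine ⟨x * c * z, hc x z, ?_⟩
  have e : x * b * z - x * c * z = x * (b - c) * z := by noncomm_ring
  rw [e]
  have h1 := (n2_mul_le h z (x * (b - c))).2
  have h2 := (n2_mul_le h x (b - c)).1
  rw [lt_div_iff₀ (by positivity)] at hbc
  have h3 := n2_nonneg τ (b - c)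
  have h4 := norm_nonneg z
  have h5 : n2 τ (x * (b - c)) * ‖z‖ ≤ ‖x‖ * n2 τ (b - c) * ‖z‖ :=
    mul_le_mul_of_nonneg_right h2 h4
  nlinarith

/-- **The Haar unitaries generate.** -/
theorem MM_all (h : TW τ) (hc : ∀ z : A, (∀ x : A, z * x = x * z) → ∃ c : ℂ, z = c • (1 : A))
    {u : unitary A} (hu : Haar τ u) (x : A) : MM τ x := by
  have huM : MM τ (u : A) := MM_of_mem τ (StarAlgebra.subset_adjoin ℂ _ ⟨u, hu, rfl⟩)
  -- noncommutativity
  obtain ⟨m, y, hm, hy, hmy⟩ : ∃ m y : A, MM τ m ∧ MM τ y ∧ m * y - y * m ≠ 0 := by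
    by_contra hcon
    push Not at hcon
    have hu1 : star (u : A) * u = 1 := Unitary.coe_star_mul_self u
    have hu2 : (u : A) * star (u : A) = 1 := Unitary.coe_mul_star_self u
    have hcen : ∀ x : A, (u : A) * x = x * u := by
      intro x
      have h1 := hcon _ (u : A) (MM_ad h x huM) huM
      obtain ⟨y, hy⟩ : ∃ y, y = (u : A) * x * star (u : A) - x := ⟨_, rfl⟩
      have hyu : (u : A) * y * star (u : A) = y := by
        have e1 : x * (u : A) - u * x = -(y * u) := by
          rw [hy, sub_mul, mul_assoc, hu1, mul_one, neg_sub]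
        rw [e1] at h1
        have e2 : (u : A) * (y * u) = y * u * u := by
          have : -(y * (u : A)) * u - u * -(y * u) = (u : A) * (y * u) - y * u * u := by
            noncomm_ring
          rw [this] at h1
          exact sub_eq_zero.1 h1
        calc (u : A) * y * star (u : A) = (u : A) * y * (u * star (u : A)) * star (u : A) := by
              rw [hu2, mul_one]
          _ = (u : A) * (y * u) * star (u : A) * star (u : A) := by simp only [mul_assoc]
          _ = y * u * u * star (u : A) * star (u : A) := by rw [e2]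
          _ = y * (u * (u * star (u : A)) * star (u : A)) := by simp only [mul_assoc]
          _ = y := by rw [hu2, mul_one, hu2, mul_one]
      have hys : star (u : A) * star y * u = star y := by
        have e3 : star y = (u : A) * star y * star (u : A) := by
          have := congrArg star hyu
          rw [star_mul, star_mul, star_star] at this
          rw [← mul_assoc] at this
          exact this.symm
        calc star (u : A) * star y * u = star (u : A) * ((u : A) * star y * star (u : A)) * u := by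
              rw [← e3]
          _ = (star (u : A) * u) * star y * (star (u : A) * u) := by simp only [mul_assoc]
          _ = star y := by rw [hu1, one_mul, mul_one]
      have hy0 : y = 0 := by
        refine h.faithful y ?_
        have e4 : star y * y = star y * (u * x * star (u : A)) - star y * x := by
          rw [← mul_sub, ← hy]
        rw [e4, map_sub, ← mul_assoc, h.comm _ (star (u : A))]
        have e5 : star (u : A) * (star y * ((u : A) * x)) = star (u : A) * star y * u * x := by
          simp only [mul_assoc]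
        rw [e5, hys, sub_self]
      rw [hy0] at hy
      have h6 : (u : A) * x * star (u : A) = x := (sub_eq_zero.1 hy.symm)
      calc (u : A) * x = (u : A) * x * (star (u : A) * u) := by rw [hu1, mul_one]
        _ = (u : A) * x * star (u : A) * u := by simp only [mul_assoc]
        _ = x * u := by rw [h6]
    obtain ⟨c, hc1⟩ := hc (u : A) hcen
    have h7 := hu 1 one_ne_zero
    rw [zpow_one, hc1, map_smul, h.one, smul_eq_mul, mul_one] at h7
    rw [h7, zero_smul] at hc1
    have h8 := h.one
    rw [← hu1, hc1, mul_zero, map_zero] at h8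
    exact zero_ne_one h8
  obtain ⟨a, ha⟩ : ∃ a, a = m * y - y * m := ⟨_, rfl⟩
  have haJ : JJ τ (star a * a) := JJ_left (by rw [ha]; exact JJ_comm h hm hy) _
  have ha0 : τ (star a * a) ≠ 0 := fun h0 => hmy (by rw [← ha]; exact h.faithful a h0)
  obtain ⟨z, hz, -, hfix⟩ := exists_fixed h
    {b : A | JJ τ b ∧ τ b = τ (star a * a) ∧ ‖b‖ ≤ ‖star a * a‖}
    ⟨star a * a, haJ, rfl, le_rfl⟩
    (by
      intro b hb b' hb' r s hr hs hrs
      refine ⟨?_, ?_, ?_⟩
      · intro x z
        have := MM_add h (MM_smul (hb.1 x z) (r : ℂ)) (MM_smul (hb'.1 x z) (s : ℂ))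
        rw [Complex.coe_smul, Complex.coe_smul] at this
        have e : x * (r • b + s • b') * z = r • (x * b * z) + s • (x * b' * z) := by
          rw [mul_add, add_mul, mul_smul_comm, mul_smul_comm, smul_mul_assoc, smul_mul_assoc]
        rw [e]; exact this
      · rw [← Complex.coe_smul, ← Complex.coe_smul s, map_add, map_smul, map_smul, hb.2.1, hb'.2.1,
          ← add_smul, ← Complex.ofReal_add, hrs, Complex.ofReal_one, one_smul]
      · have : ‖r • b + s • b'‖ ≤ r * ‖star a * a‖ + s * ‖star a * a‖ := by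
          refine (norm_add_le _ _).trans ?_
          rw [norm_smul, norm_smul, Real.norm_of_nonneg hr, Real.norm_of_nonneg hs]
          exact add_le_add (mul_le_mul_of_nonneg_left hb.2.2 hr)
            (mul_le_mul_of_nonneg_left hb'.2.2 hs)
        rw [← add_mul, hrs, one_mul] at this
        exact this)
    ‖star a * a‖ (fun y hy => hy.2.2)
  have hzg : ∀ g : unitary A, (g : A) * z = z * g := by
    intro g
    have hg1 : star (g : A) * g = 1 := Unitary.coe_star_mul_self g
    have hg2 : (g : A) * star (g : A) = 1 := Unitary.coe_mul_star_self g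
    have h9 : (g : A) * z * star (g : A) = z := by
      have := hfix ((LinearMap.mulRight ℂ (star (g : A))).comp (LinearMap.mulLeft ℂ (g : A))) ?_ ?_
      · simpa using this
      · intro y
        show n2 τ ((g : A) * y * star (g : A)) = n2 τ y
        rw [n2_uni_right h (by rw [star_star]; exact hg1), n2_uni_left h hg1]
      · rintro b ⟨hb1, hb2, hb3⟩
        show JJ τ ((g : A) * b * star (g : A)) ∧ τ ((g : A) * b * star (g : A)) = τ (star a * a) ∧
          ‖(g : A) * b * star (g : A)‖ ≤ ‖star a * a‖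
        refine ⟨?_, ?_, ?_⟩
        · intro x z
          have := hb1 (x * g) (star (g : A) * z)
          have e : x * ((g : A) * b * star (g : A)) * z = x * (g : A) * b * (star (g : A) * z) := by
            simp only [mul_assoc]
          rw [e]; exact this
        · rw [h.comm, ← mul_assoc, hg1, one_mul, hb2]
        · have hgn : ‖(g : A)‖ ≤ 1 := norm_le_of_uni hg1
          calc ‖(g : A) * b * star (g : A)‖ ≤ ‖(g : A) * b‖ * ‖star (g : A)‖ := norm_mul_le _ _
            _ ≤ ‖(g : A)‖ * ‖b‖ * ‖star (g : A)‖ :=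
                mul_le_mul_of_nonneg_right (norm_mul_le _ _) (norm_nonneg _)
            _ ≤ 1 * ‖star a * a‖ * 1 := by
                rw [norm_star]
                gcongr
            _ = ‖star a * a‖ := by ring
    calc (g : A) * z = (g : A) * z * (star (g : A) * g) := by rw [hg1, mul_one]
      _ = (g : A) * z * star (g : A) * g := by simp only [mul_assoc]
      _ = z * g := by rw [h9]
  have hzc : ∀ x : A, z * x = x * z := by
    intro x
    have hx : x ∈ Submodule.span ℂ ((unitary A : Set A)) := by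
      rw [CStarAlgebra.span_unitary]; exact Submodule.mem_top
    induction hx using Submodule.span_induction with
    | mem g hg => exact (hzg ⟨g, hg⟩).symm
    | zero => rw [mul_zero, zero_mul]
    | add p q _ _ hp hq => rw [mul_add, add_mul, hp, hq]
    | smul c p _ hp => rw [mul_smul_comm, smul_mul_assoc, hp]
  obtain ⟨c, hc1⟩ := hc z hzc
  have hτz : τ z = τ (star a * a) := by
    have h10 : ‖τ z - τ (star a * a)‖ ≤ 0 := by
      refine le_of_forall_pos_le_add fun ε hε => ?_
      obtain ⟨b, hb, hzb⟩ := hz ε hε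
      rw [← hb.2.1, ← map_sub]
      have h11 := h.cauchy' 1 (z - b)
      rw [one_mul] at h11
      have h12 : n2 τ (1 : A) = 1 := by
        unfold n2
        rw [star_one, mul_one, h.one]
        simp
      rw [h12, one_mul] at h11
      linarith
    exact sub_eq_zero.1 (norm_le_zero_iff.1 h10)
  have hc0 : c ≠ 0 := by
    rintro rfl
    rw [hc1, zero_smul, map_zero] at hτz
    exact ha0 hτz.symm
  have hzJ : JJ τ z := JJ_cl h fun ε hε => by
    obtain ⟨b, hb, hzb⟩ := hz ε hε
    exact ⟨b, hb.1, hzb⟩
  have h13 := MM_smul (hzJ x 1) c⁻¹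
  rw [hc1, mul_one, mul_smul_comm, mul_one, smul_smul, inv_mul_cancel₀ hc0, one_smul] at h13
  exact h13

/-- A dense set of Haar unitaries generates. -/
theorem gen_of_dense (h : TW τ) (hc : ∀ z : A, (∀ x : A, z * x = x * z) → ∃ c : ℂ, z = c • (1 : A))
    {u : unitary A} (hu : Haar τ u) (S : Set (unitary A))
    (hS : ∀ v : unitary A, Haar τ v → ∀ ε : ℝ, 0 < ε → ∃ w ∈ S, n2 τ ((v : A) - w) < ε) (x : A) :
    x ∈ Cl τ (StarAlgebra.adjoin ℂ ((fun v : unitary A => (v : A)) '' S) : Set A) := by
  set D := StarAlgebra.adjoin ℂ ((fun v : unitary A => (v : A)) '' S) with hD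
  have key : ∀ y ∈ StarAlgebra.adjoin ℂ (HS τ), y ∈ Cl τ (D : Set A) := by
    intro y hy
    induction hy using StarAlgebra.adjoin_induction with
    | mem y hy =>
      obtain ⟨v, hv, rfl⟩ := hy
      intro ε hε
      obtain ⟨w, hw, hvw⟩ := hS v hv ε hε
      exact ⟨(w : A), StarAlgebra.subset_adjoin ℂ _ ⟨w, hw, rfl⟩, hvw⟩
    | algebraMap r =>
      intro ε hε
      exact ⟨_, (D.algebraMap_mem r), by rw [sub_self, n2_zero]; exact hε⟩
    | add p q _ _ hp hq =>
      intro ε hε
      obtain ⟨x', hx', h1⟩ := hp (ε / 2) (by positivity)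
      obtain ⟨y', hy', h2⟩ := hq (ε / 2) (by positivity)
      refine ⟨x' + y', add_mem hx' hy', ?_⟩
      have e : p + q - (x' + y') = (p - x') + (q - y') := by abel
      rw [e]
      linarith [h.n2_add_le (p - x') (q - y')]
    | mul p q _ _ hp hq =>
      intro ε hε
      obtain ⟨y', hy', h2⟩ := hq (ε / 2 / (‖p‖ + 1)) (by positivity)
      obtain ⟨x', hx', h1⟩ := hp (ε / 2 / (‖y'‖ + 1)) (by positivity)
      refine ⟨x' * y', mul_mem hx' hy', ?_⟩
      have e : p * q - x' * y' = p * (q - y') + (p - x') * y' := by noncomm_ring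
      rw [e]
      have h3 := (n2_mul_le h p (q - y')).1
      have h4 := (n2_mul_le h y' (p - x')).2
      have h5 := n2_nonneg τ (p - x')
      have h6 := n2_nonneg τ (q - y')
      rw [lt_div_iff₀ (by positivity)] at h1 h2
      have := h.n2_add_le (p * (q - y')) ((p - x') * y')
      nlinarith [norm_nonneg p, norm_nonneg y']
    | star p _ hp =>
      intro ε hε
      obtain ⟨x', hx', h1⟩ := hp ε hε
      exact ⟨star x', star_mem hx', by rw [← star_sub, h.n2_star]; exact h1⟩
  intro ε hε
  obtain ⟨y, hy, hxy⟩ := MM_all h hc hu x (ε / 2) (by positivity)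
  obtain ⟨z, hz, hyz⟩ := key y hy (ε / 2) (by positivity)
  exact ⟨z, hz, by linarith [h.n2_tri x y z]⟩

end Pool.Agent.H917R3.DO
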