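import Mathlib
import Pool.Agent.H917R3.DO.Rev
import Pool.Agent.H80R3.SO.Orb

set_option autoImplicit false

open scoped ComplexOrder Topology
open Filter

noncomputable section

namespace Pool.Agent.H917R3.DO

open Pool.Agent.H467F Pool.Agent.H80R3.SO

variable {A : Type} [CStarAlgebra A] {τ : A →ₗ[ℂ] ℂ}

theorem orbit_eq_Ob (h : TW τ) {U : Ultrafilter ℕ} (hU : ∀ n, {n} ∉ U) {u : unitary A}
    (hu : Haar τ u) : orbit τ U u = {v | Ob τ u v} := by
  ext v
  constructor
  · rintro ⟨hv, n, -, hn⟩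
    exact ⟨hv, n, (p_CH A τ h U hU n u v).1 hn⟩
  · rintro ⟨hv, m, hm⟩
    exact ⟨hv, m + 1, by omega, (p_CH A τ h U hU (m + 1) u v).2
      (p_TR4 A τ h m (m + 1) u v hu hm (by omega))⟩

theorem stab_of (h : TW τ) {u : unitary A} (hu : Haar τ u) {k : unitary A} {m : ℕ}
    (hk : R τ m u (k * u * star k)) (v : unitary A) : Ob τ u v ↔ Ob τ u (k * v * star k) := by
  constructor
  · rintro ⟨hv, l, hl⟩
    exact ⟨haar_conj h hv k, _, p_TR2 A τ h m l _ _ _ (haar_conj h hu k) hk
      (p_TR3 A τ h l k _ _ hl)⟩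
  · rintro ⟨hv, l, hl⟩
    have h1 := p_TR2 A τ h m l _ _ _ hu (p_TR1 A τ h m _ _ hk) hl
    have h2 := p_TR3 A τ h (m + 1 + l) (star k) _ _ h1
    rw [conj_conj, conj_conj, Unitary.star_mul_self, star_one, one_mul, mul_one, one_mul,
      mul_one] at h2
    have h3 := haar_conj h hv (star k)
    rw [conj_conj, Unitary.star_mul_self, star_one, one_mul, mul_one] at h3
    exact ⟨h3, _, h2⟩

theorem dense_of_dense (hF : Fac τ) {u : unitary A} (hu : Haar τ u) (G : Set (unitary A))
    (hG : ∀ g : unitary A, ∀ ε : ℝ, 0 < ε → ∃ k ∈ G, n2 τ ((g : A) - k) < ε)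
    (v : unitary A) (hv : Haar τ v) (ε : ℝ) (hε : 0 < ε) :
    ∃ k ∈ G, n2 τ ((v : A) - ((k * u * star k : unitary A) : A)) < ε := by
  have h := hF.tw
  obtain ⟨g, hg⟩ := p_AC p_FS A τ hF u v hu hv (ε / 2) (by positivity)
  obtain ⟨k, hk, hgk⟩ := hG g (ε / 4) (by positivity)
  refine ⟨k, hk, ?_⟩
  have h1 : n2 τ (((g * u * star g : unitary A) : A) - ((k * u * star k : unitary A) : A)) < ε / 2 := by
    have e : ((g * u * star g : unitary A) : A) - ((k * u * star k : unitary A) : A) =
        (((g : A) - k) * u) * star (g : A) + ((k : A) * u) * star ((g : A) - k) := by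
      show (g : A) * u * star (g : A) - (k : A) * u * star (k : A) = _
      rw [star_sub]
      noncomm_ring
    rw [e]
    refine lt_of_le_of_lt (h.n2_add_le _ _) ?_
    have hku : star ((k : A) * u) * ((k : A) * u) = 1 := by
      rw [star_mul, mul_assoc, ← mul_assoc (star (k : A)), Unitary.coe_star_mul_self, one_mul,
        Unitary.coe_star_mul_self]
    rw [n2_uni_right h (by rw [star_star]; exact Unitary.coe_star_mul_self g),
      n2_uni_right h (Unitary.coe_mul_star_self u), n2_uni_left h hku, h.n2_star]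
    linarith
  have h2 := h.n2_tri (v : A) ((g * u * star g : unitary A) : A) ((k * u * star k : unitary A) : A)
  rw [n2_sub_comm τ (v : A) ((g * u * star g : unitary A) : A)] at h2
  linarith

end Pool.Agent.H917R3.DO
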