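import Mathlib
import Pool.Agent.H917R3.DO.Fin

set_option autoImplicit false

open scoped ComplexOrder Topology
open Filter

noncomputable section

namespace Pool.Agent.H917R3.DO

open Pool.Agent.H467F Pool.Agent.H80R3.SO

variable {A : Type} [CStarAlgebra A] {τ : A →ₗ[ℂ] ℂ}

theorem Vc_mem (h : TW τ) {G S : Set A} (hG : Gp G) (hS : Sp G S) (hne : S.Nonempty) (x : A)
    (hgen : x ∈ Cl τ (StarAlgebra.adjoin ℂ S : Set A)) : Vc τ G x := by
  obtain ⟨v0, hv0⟩ := hne
  have h1 : Vc τ G 1 := Vc_com h hS hv0 (by rw [one_mul, mul_one])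
  have key : ∀ y ∈ StarAlgebra.adjoin ℂ S,
      (∀ x, Vc τ G x → Vc τ G (y * x)) ∧ ∀ x, Vc τ G x → Vc τ G (star y * x) := by
    intro y hy
    induction hy using StarAlgebra.adjoin_induction with
    | mem y hy => exact ⟨fun x hx => Vc_left h hG hS hy hx,
        fun x hx => Vc_left h hG hS (hS.str y hy) hx⟩
    | algebraMap r =>
      refine ⟨fun x hx => ?_, fun x hx => ?_⟩
      · rw [Algebra.algebraMap_eq_smul_one, smul_mul_assoc, one_mul]; exact Vc_smul h hG hx _
      · rw [Algebra.algebraMap_eq_smul_one, star_smul, star_one, smul_mul_assoc, one_mul]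
        exact Vc_smul h hG hx _
    | add y z _ _ hy hz =>
      refine ⟨fun x hx => ?_, fun x hx => ?_⟩
      · rw [add_mul]; exact Vc_add h hG (hy.1 x hx) (hz.1 x hx)
      · rw [star_add, add_mul]; exact Vc_add h hG (hy.2 x hx) (hz.2 x hx)
    | mul y z _ _ hy hz =>
      refine ⟨fun x hx => ?_, fun x hx => ?_⟩
      · rw [mul_assoc]; exact hy.1 _ (hz.1 x hx)
      · rw [star_mul, mul_assoc]; exact hz.2 _ (hy.2 x hx)
    | star y _ hy => exact ⟨hy.2, fun x hx => by rw [star_star]; exact hy.1 x hx⟩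
  refine Vc_cl h fun ε hε => ?_
  obtain ⟨y, hy, hxy⟩ := hgen ε hε
  refine ⟨y, ?_, hxy⟩
  have := (key y hy).1 1 h1
  rwa [mul_one] at this

theorem exp_mem (h : TW τ) {G S : Set A} (hG : Gp G) (hS : Sp G S) (hne : S.Nonempty) (x : A)
    (hx : star x = x) (hgen : x ∈ Cl τ (StarAlgebra.adjoin ℂ S : Set A)) (ε : ℝ) (hε : 0 < ε) :
    ∃ k ∈ G, n2 τ (NormedSpace.exp (Complex.I • x) - k) < ε := by
  obtain ⟨a, b, ha, hb, hab⟩ := Vc_mem h hG hS hne x hgen
  have h1 : star x = a - Complex.I • b := by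
    rw [hab, star_add, star_smul, ha.1, hb.1, Complex.star_def, Complex.conj_I, neg_smul,
      sub_eq_add_neg]
  have h2 : x = a := by
    have h5 : x = a - Complex.I • b := hx.symm.trans h1
    have h6 : x + x = (a + Complex.I • b) + (a - Complex.I • b) := by rw [← hab, ← h5]
    have h3 : (2 : ℂ) • x = (2 : ℂ) • a := by
      rw [two_smul, two_smul, h6]
      abel
    have h4 := congrArg (fun y => (1 / 2 : ℂ) • y) h3
    simpa [smul_smul] using h4
  have h7 : Tg τ G x := by rw [h2]; exact ha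
  obtain ⟨k, hk, hkx⟩ := Tg_exp h hG h7 ε hε
  unfold ex at hkx
  rw [one_smul] at hkx
  exact ⟨k, hk, hkx⟩

end Pool.Agent.H917R3.DO
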