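import Mathlib
import Pool.Agent.H917R3.DO.Fin
import Pool.Agent.H80R3.SO.CP
import Pool.Agent.H80R3.SO.ST

set_option autoImplicit false

open scoped ComplexOrder Topology
open Filter

noncomputable section

namespace Pool.Agent.H917R3.DO

open Pool.Agent.H467F Pool.Agent.H80R3.SO

variable {A : Type} [CStarAlgebra A] {τ : A →ₗ[ℂ] ℂ}

/-- the unitary group, to carry the 2-norm metric -/
def UW (A : Type) [CStarAlgebra A] : Type := unitary A

/-- the element -/
def UW.el (g : UW A) : A := ((show unitary A from g) : A)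

theorem baire_uni (h : TW τ) (F : ℕ → Set (unitary A))
    (hcl : ∀ (m : ℕ) (g : unitary A), (∀ ε : ℝ, 0 < ε → ∃ k ∈ F m, n2 τ ((g : A) - k) < ε) → g ∈ F m)
    (hall : ∀ g, ∃ m, g ∈ F m) :
    ∃ (m : ℕ) (g0 : unitary A) (ρ : ℝ), 0 < ρ ∧
      ∀ g : unitary A, n2 τ ((g : A) - g0) < ρ → g ∈ F m := by
  let inst : MetricSpace (UW A) :=
    { dist := fun a b => n2 τ (a.el - b.el)
      dist_self := fun a => by
        show n2 τ (a.el - a.el) = 0
        rw [sub_self, n2_zero]
      dist_comm := fun a b => n2_sub_comm τ _ _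
      dist_triangle := fun a b c => h.n2_tri _ _ _
      eq_of_dist_eq_zero := by
        intro a b hab
        exact Subtype.ext (sub_eq_zero.1 (h.eq_zero hab)) }
  have hdist : ∀ a b : UW A, dist a b = n2 τ (a.el - b.el) := fun _ _ => rfl
  have hcomp : CompleteSpace (UW A) := by
    refine Metric.complete_of_convergent_controlled_sequences (fun n => (1 / 2) ^ n)
      (fun n => by positivity) ?_
    intro x hx
    obtain ⟨y, hy, ht⟩ := CPx.exists_lim h (x := fun n => (x n).el)
      (fun n => (show unitary A from x n).2) (fun n => (hx n n (n + 1) le_rfl (by omega)).le)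
    exact ⟨(show UW A from ⟨y, hy⟩), tendsto_iff_dist_tendsto_zero.2 ht⟩
  have hne : Nonempty (UW A) := ⟨(1 : unitary A)⟩
  obtain ⟨m, x, hx⟩ := nonempty_interior_of_iUnion_of_closed
    (f := fun m : ℕ => {g : UW A | (show unitary A from g) ∈ F m})
    (by
      intro m
      refine isClosed_of_closure_subset fun g hg => ?_
      rw [Metric.mem_closure_iff] at hg
      refine hcl m g fun ε hε => ?_
      obtain ⟨b, hb, hgb⟩ := hg ε hε
      exact ⟨b, hb, hgb⟩)
    (by
      refine Set.eq_univ_of_forall fun g => ?_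
      obtain ⟨m, hm⟩ := hall g
      exact Set.mem_iUnion.2 ⟨m, hm⟩)
  rw [mem_interior_iff_mem_nhds, Metric.mem_nhds_iff] at hx
  obtain ⟨ρ, hρ, hb⟩ := hx
  exact ⟨m, x, ρ, hρ, fun g hg => hb (show (show UW A from g) ∈ Metric.ball x ρ from hg)⟩

/-- **An orbit invariant under conjugation is everything, with finite diameter.** -/
theorem inv_all (hF : Fac τ) {u : unitary A} (hu : Haar τ u)
    (hinv : ∀ g : unitary A, ∃ m, R τ m u (g * u * star g)) :
    ∃ M : ℕ, ∀ v : unitary A, Haar τ v → R τ M u v := by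
  have h := hF.tw
  obtain ⟨m, g0, ρ, hρ, hB⟩ := baire_uni h (fun m => {g : unitary A | R τ m u (g * u * star g)})
    (by
      intro m g hg
      refine p_CL A τ h m u (g * u * star g) fun ε hε => ?_
      obtain ⟨k, hk, hgk⟩ := hg (ε / 2) (by positivity)
      refine ⟨u, k * u * star k, by rw [sub_self, n2_zero]; exact hε, ?_, hk⟩
      have e : ((g * u * star g : unitary A) : A) - ((k * u * star k : unitary A) : A) =
          (((g : A) - k) * u) * star (g : A) + ((k : A) * u) * star ((g : A) - k) := by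
        show (g : A) * u * star (g : A) - (k : A) * u * star (k : A) = _
        rw [star_sub]
        noncomm_ring
      rw [e]
      refine lt_of_le_of_lt (h.n2_add_le _ _) ?_
      have hku : star ((k : A) * u) * ((k : A) * u) = 1 := by
        rw [star_mul, mul_assoc, ← mul_assoc (star (k : A)), Unitary.coe_star_mul_self, one_mul,
          Unitary.coe_star_mul_self]
      rw [n2_uni_right h (by rw [star_star]; exact Unitary.coe_star_mul_self g),
        n2_uni_right h (Unitary.coe_mul_star_self u), n2_uni_left h hku, h.n2_star]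
      linarith)
    hinv
  have hnear : ∀ k : unitary A, n2 τ ((k : A) - 1) < ρ → R τ (m + 1 + m) u (k * u * star k) := by
    intro k hk
    have h1 : R τ m u ((k * g0) * u * star (k * g0)) := by
      refine hB (k * g0) ?_
      have e : ((k * g0 : unitary A) : A) - (g0 : A) = ((k : A) - 1) * g0 := by
        show (k : A) * g0 - g0 = _
        rw [sub_mul, one_mul]
      rw [e, n2_uni_right h (Unitary.coe_mul_star_self g0)]
      exact hk
    have h2 : R τ m u (g0 * u * star g0) := hB g0 (by rw [sub_self, n2_zero]; exact hρ)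
    have h3 := p_TR3 A τ h m k _ _ h2
    rw [conj_conj] at h3
    exact p_TR2 A τ h m m _ _ _ (haar_conj h hu _) h1 (p_TR1 A τ h m _ _ h3)
  obtain ⟨L, hL⟩ := p_ST p_FS ρ hρ
  have hpow : ∀ z : unitary A, n2 τ ((z : A) - 1) < ρ → ∀ j : ℕ,
      R τ (j * (m + 1 + m + 1)) u (z ^ j * u * star (z ^ j)) := by
    intro z hz j
    induction j with
    | zero =>
      rw [zero_mul, pow_zero, one_mul, star_one, mul_one]
      exact R_comm rfl
    | succ j ih =>
      have h3 := p_TR3 A τ h _ (z ^ j) _ _ (hnear z hz)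
      rw [conj_conj, ← pow_succ] at h3
      have h4 := p_TR2 A τ h _ _ _ _ _ (haar_conj h hu _) ih h3
      have e : j * (m + 1 + m + 1) + 1 + (m + 1 + m) = (j + 1) * (m + 1 + m + 1) := by ring
      rwa [e] at h4
  refine ⟨(m + 1 + m) + 1 + L * (m + 1 + m + 1), fun v hv => ?_⟩
  refine p_CL A τ h _ u v fun ε hε => ?_
  obtain ⟨g, hg⟩ := p_AC p_FS A τ hF u v hu hv ε hε
  refine ⟨u, g * u * star g, by rw [sub_self, n2_zero]; exact hε, by rw [n2_sub_comm]; exact hg, ?_⟩
  obtain ⟨r, z, rfl, hr, hz⟩ := hL A τ hF g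
  have h5 := p_TR3 A τ h _ r _ _ (hpow z hz L)
  rw [conj_conj] at h5
  exact p_TR2 A τ h _ _ _ _ _ (haar_conj h hu _) (hnear r hr) h5

end Pool.Agent.H917R3.DO
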