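import Mathlib
import Pool.Agent.H917R3.DO.Rev

set_option autoImplicit false

open scoped ComplexOrder Topology
open Filter

noncomputable section

namespace Pool.Agent.H917R3.DO

open Pool.Agent.H467F Pool.Agent.H80R3.SO

variable {A : Type} [CStarAlgebra A] {τ : A →ₗ[ℂ] ℂ}

/-- the algebra generated by `T` -/
def QQ (τ : A →ₗ[ℂ] ℂ) (T : Set A) (x : A) : Prop := x ∈ Cl τ (StarAlgebra.adjoin ℂ T : Set A)

theorem QQ_cl (h : TW τ) {T : Set A} {x : A} (hx : ∀ ε : ℝ, 0 < ε → ∃ y, QQ τ T y ∧ n2 τ (x - y) < ε) :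
    QQ τ T x := by
  intro ε hε
  obtain ⟨y, hy, hxy⟩ := hx (ε / 2) (by positivity)
  obtain ⟨z, hz, hyz⟩ := hy (ε / 2) (by positivity)
  exact ⟨z, hz, by linarith [h.n2_tri x y z]⟩

theorem QQ_of_mem (τ : A →ₗ[ℂ] ℂ) {T : Set A} {x : A} (hx : x ∈ StarAlgebra.adjoin ℂ T) : QQ τ T x :=
  fun ε hε => ⟨x, hx, by rw [sub_self, n2_zero]; exact hε⟩

theorem QQ_add (h : TW τ) {T : Set A} {x y : A} (hx : QQ τ T x) (hy : QQ τ T y) : QQ τ T (x + y) := by
  intro ε hε
  obtain ⟨x', hx', h1⟩ := hx (ε / 2) (by positivity)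
  obtain ⟨y', hy', h2⟩ := hy (ε / 2) (by positivity)
  refine ⟨x' + y', add_mem hx' hy', ?_⟩
  have e : x + y - (x' + y') = (x - x') + (y - y') := by abel
  rw [e]
  linarith [h.n2_add_le (x - x') (y - y')]

theorem QQ_smul {T : Set A} {x : A} (hx : QQ τ T x) (c : ℂ) : QQ τ T (c • x) := by
  intro ε hε
  obtain ⟨x', hx', h1⟩ := hx (ε / (‖c‖ + 1)) (by positivity)
  refine ⟨c • x', SMulMemClass.smul_mem c hx', ?_⟩
  rw [← smul_sub, n2_smul]
  have h2 : 0 ≤ n2 τ (x - x') := n2_nonneg _ _
  rw [lt_div_iff₀ (by positivity)] at h1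
  nlinarith

theorem QQ_sub (h : TW τ) {T : Set A} {x y : A} (hx : QQ τ T x) (hy : QQ τ T y) : QQ τ T (x - y) := by
  have := QQ_add h hx (QQ_smul hy (-1))
  rwa [neg_one_smul, ← sub_eq_add_neg] at this

theorem QQ_mul (h : TW τ) {T : Set A} {x y : A} (hx : QQ τ T x) (hy : QQ τ T y) : QQ τ T (x * y) := by
  intro ε hε
  obtain ⟨y', hy', h2⟩ := hy (ε / 2 / (‖x‖ + 1)) (by positivity)
  obtain ⟨x', hx', h1⟩ := hx (ε / 2 / (‖y'‖ + 1)) (by positivity)
  refine ⟨x' * y', mul_mem hx' hy', ?_⟩
  have e : x * y - x' * y' = x * (y - y') + (x - x') * y' := by noncomm_ring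
  rw [e]
  have h3 := (n2_mul_le h x (y - y')).1
  have h4 := (n2_mul_le h y' (x - x')).2
  have h5 := n2_nonneg τ (x - x')
  have h6 := n2_nonneg τ (y - y')
  rw [lt_div_iff₀ (by positivity)] at h1 h2
  have := h.n2_add_le (x * (y - y')) ((x - x') * y')
  nlinarith [norm_nonneg x, norm_nonneg y']


theorem QQ_star (h : TW τ) {T : Set A} {x : A} (hx : QQ τ T x) : QQ τ T (star x) := by
  intro ε hε
  obtain ⟨y, hy, hxy⟩ := hx ε hε
  exact ⟨star y, star_mem hy, by rw [← star_sub, h.n2_star]; exact hxy⟩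

/-- near `v0` every Haar unitary is in the algebra -/
def Near (τ : A →ₗ[ℂ] ℂ) (P : A → Prop) (v0 : unitary A) (ρ : ℝ) : Prop :=
  ∀ v : unitary A, Haar τ v → n2 τ ((v : A) - v0) < ρ → P v

/-- limits of difference quotients of conjugates -/
theorem near_ad (h : TW τ) (P : A → Prop)
    (hPcl : ∀ x : A, (∀ ε : ℝ, 0 < ε → ∃ y, P y ∧ n2 τ (x - y) < ε) → P x)
    (hPsub : ∀ x y, P x → P y → P (x - y)) (hPsm : ∀ (c : ℂ) x, P x → P (c • x))
    {v0 v : unitary A} {ρ : ℝ} (hP : Near τ P v0 ρ) (hv : Haar τ v)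
    (hvv : n2 τ ((v : A) - v0) < ρ / 2) (hρ : 0 < ρ) {a : A} (ha : star a = a) :
    P (a * v - v * a) := by
  have hd : HasDerivAt (fun t : ℝ => ex a t * v * ex a (-t))
      (Complex.I • a * v * 1 + 1 * v * (-(Complex.I • a))) 0 := by
    have h1 := ex_deriv a
    have h2 : HasDerivAt (fun t : ℝ => ex a (-t)) (-(Complex.I • a)) 0 := by
      have h3 : HasDerivAt (fun t : ℝ => ex a t) (Complex.I • a) (-(0 : ℝ)) := by
        rw [neg_zero]; exact h1
      have h5 := h3.scomp (0 : ℝ) (hasDerivAt_neg (0 : ℝ))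
      rw [neg_one_smul] at h5
      exact h5
    have h4 := (h1.mul_const (v : A)).mul h2
    simp only [ex_zero, neg_zero] at h4
    exact h4
  have hvP : P v := hP v hv (by linarith)
  have h2 : P (Complex.I • (a * v - v * a)) := by
    refine hPcl _ fun ε hε => ?_
    have h1 := hd.isLittleO.def (half_pos hε)
    have hc := hd.continuousAt
    rw [Metric.continuousAt_iff] at hc
    obtain ⟨δ', hδ', Hc⟩ := hc (ρ / 2) (by positivity)
    rw [Metric.eventually_nhds_iff] at h1
    obtain ⟨δ0, hδ0, H⟩ := h1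
    obtain ⟨δ, hδdef⟩ : ∃ δ, δ = min δ0 δ' := ⟨_, rfl⟩
    have hδ : 0 < δ := by rw [hδdef]; exact lt_min hδ0 hδ'
    have hδ1 : δ ≤ δ0 := by rw [hδdef]; exact min_le_left _ _
    have hδ2 : δ ≤ δ' := by rw [hδdef]; exact min_le_right _ _
    have ht0 : (0 : ℝ) < δ / 2 := by positivity
    have h2 := H (y := δ / 2) (by rw [Real.dist_eq, sub_zero, abs_of_pos ht0]; linarith)
    have h2c := Hc (x := δ / 2) (by rw [Real.dist_eq, sub_zero, abs_of_pos ht0]; linarith)
    simp only [sub_zero, ex_zero, neg_zero, mul_one, one_mul] at h2 h2c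
    rw [dist_eq_norm] at h2c
    rw [Real.norm_eq_abs, abs_of_pos ht0] at h2
    refine ⟨(((δ / 2)⁻¹ : ℝ) : ℂ) • (ex a (δ / 2) * v * ex a (-(δ / 2)) - v), ?_, ?_⟩
    · refine hPsm _ _ (hPsub _ _ ?_ hvP)
      rw [← star_ex ha]
      obtain ⟨g, hg⟩ : ∃ g : unitary A, (g : A) = ex a (δ / 2) :=
        ⟨⟨ex a (δ / 2), Unitary.mem_iff.2 (ex_uni ha _)⟩, rfl⟩
      rw [← star_ex ha] at h2c
      rw [← hg] at h2c ⊢
      refine hP (g * v * star g) (haar_conj h hv g) ?_
      have h6 := h.n2_tri ((g * v * star g : unitary A) : A) (v : A) (v0 : A)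
      have h7 : n2 τ (((g * v * star g : unitary A) : A) - v) < ρ / 2 :=
        lt_of_le_of_lt (n2_le_norm h _) h2c
      linarith
    · refine lt_of_le_of_lt (n2_le_norm h _) ?_
      rw [norm_sub_rev]
      have e : (((δ / 2)⁻¹ : ℝ) : ℂ) • (ex a (δ / 2) * v * ex a (-(δ / 2)) - v) -
          Complex.I • (a * v - v * a) = (((δ / 2)⁻¹ : ℝ) : ℂ) •
            (ex a (δ / 2) * v * ex a (-(δ / 2)) - v - (δ / 2) • (Complex.I • a * v +
              v * -(Complex.I • a))) := by
        rw [smul_sub _ (ex a (δ / 2) * v * ex a (-(δ / 2)) - v)]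
        congr 1
        rw [Complex.coe_smul, smul_smul, inv_mul_cancel₀ ht0.ne', one_smul, smul_mul_assoc,
          mul_neg, mul_smul_comm, ← sub_eq_add_neg, smul_sub]
      rw [e, norm_smul, Complex.norm_real, Real.norm_eq_abs, abs_of_pos (inv_pos.2 ht0)]
      calc (δ / 2)⁻¹ * _ ≤ (δ / 2)⁻¹ * (ε / 2 * (δ / 2)) :=
            mul_le_mul_of_nonneg_left h2 (inv_pos.2 ht0).le
        _ = ε / 2 := by field_simp
        _ < ε := by linarith
  have h3 := hPsm (-Complex.I) _ h2
  rw [smul_smul] at h3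
  have e : -Complex.I * Complex.I = 1 := by rw [neg_mul, Complex.I_mul_I, neg_neg]
  rwa [e, one_smul] at h3

theorem near_ad' (h : TW τ) (P : A → Prop)
    (hPcl : ∀ x : A, (∀ ε : ℝ, 0 < ε → ∃ y, P y ∧ n2 τ (x - y) < ε) → P x)
    (hPsub : ∀ x y, P x → P y → P (x - y)) (hPsm : ∀ (c : ℂ) x, P x → P (c • x))
    {v0 v : unitary A} {ρ : ℝ} (hP : Near τ P v0 ρ) (hv : Haar τ v)
    (hvv : n2 τ ((v : A) - v0) < ρ / 2) (hρ : 0 < ρ) (x : A) :
    P (x * v - v * x) := by
  have ha := near_ad h P hPcl hPsub hPsm hP hv hvv hρ (a := (1 / 2 : ℂ) • (x + star x))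
    (by rw [star_smul, star_add, star_star, add_comm]; simp)
  have hb := near_ad h P hPcl hPsub hPsm hP hv hvv hρ (a := (-(Complex.I / 2) : ℂ) • (x - star x))
    (by rw [star_smul, star_sub, star_star, ← neg_sub x (star x), smul_neg, ← neg_smul]
        congr 1
        simp
        ring)
  have h3 := hPsub _ _ ha (hPsm (-Complex.I) _ hb)
  have e2 : Complex.I * -(Complex.I / 2) = (1 / 2 : ℂ) := by
    have := Complex.I_mul_I
    linear_combination (-1 / 2) * this
  have e : x = (1 / 2 : ℂ) • (x + star x) + Complex.I • ((-(Complex.I / 2) : ℂ) • (x - star x)) := by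
    rw [smul_smul, e2, ← smul_add]
    have : x + star x + (x - star x) = (2 : ℂ) • x := by rw [two_smul]; abel
    rw [this, smul_smul]; norm_num
  have e3 : ∀ p q : A, (p + Complex.I • q) * v - v * (p + Complex.I • q) =
      p * v - v * p - (-Complex.I) • (q * v - v * q) := by
    intro p q
    rw [add_mul, mul_add, smul_mul_assoc, mul_smul_comm, smul_sub, neg_smul, neg_smul]
    abel
  have e4 := e3 ((1 / 2 : ℂ) • (x + star x)) ((-(Complex.I / 2) : ℂ) • (x - star x))
  rw [← e] at e4
  rw [e4]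
  exact h3


/-- double commutators -/
theorem not_dbl (h : TW τ) (hc : ∀ z : A, (∀ x : A, z * x = x * z) → ∃ c : ℂ, z = c • (1 : A))
    {u : unitary A} (hu : Haar τ u)
    (hcon : ∀ x : A, (x * u - u * x) * u - u * (x * u - u * x) = 0) : False := by
    have hu1 : star (u : A) * u = 1 := Unitary.coe_star_mul_self u
    have hu2 : (u : A) * star (u : A) = 1 := Unitary.coe_mul_star_self u
    have hcen : ∀ x : A, (u : A) * x = x * u := by
      intro x
      have h1 := hcon x
      obtain ⟨y, hy⟩ : ∃ y, y = (u : A) * x * star (u : A) - x := ⟨_, rfl⟩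
      have hyu : (u : A) * y * star (u : A) = y := by
        have e1 : x * (u : A) - u * x = -(y * u) := by
          rw [hy, sub_mul, mul_assoc, hu1, mul_one, neg_sub]
        rw [e1] at h1
        have e2 : (u : A) * (y * u) = y * u * u := by
          have : -(y * (u : A)) * u - u * -(y * u) = (u : A) * (y * u) - y * u * u := by
            noncomm_ring
          rw [this] at h1
          exact sub_eq_zero.1 h1
        calc (u : A) * y * star (u : A) = (u : A) * y * (u * star (u : A)) * star (u : A) := by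
              rw [hu2, mul_one]
          _ = (u : A) * (y * u) * star (u : A) * star (u : A) := by simp only [mul_assoc]
          _ = y * u * u * star (u : A) * star (u : A) := by rw [e2]
          _ = y * (u * (u * star (u : A)) * star (u : A)) := by simp only [mul_assoc]
          _ = y := by rw [hu2, mul_one, hu2, mul_one]
      have hys : star (u : A) * star y * u = star y := by
        have e3 : star y = (u : A) * star y * star (u : A) := by
          have := congrArg star hyu
          rw [star_mul, star_mul, star_star] at this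
          rw [← mul_assoc] at this
          exact this.symm
        calc star (u : A) * star y * u = star (u : A) * ((u : A) * star y * star (u : A)) * u := by
              rw [← e3]
          _ = (star (u : A) * u) * star y * (star (u : A) * u) := by simp only [mul_assoc]
          _ = star y := by rw [hu1, one_mul, mul_one]
      have hy0 : y = 0 := by
        refine h.faithful y ?_
        have e4 : star y * y = star y * (u * x * star (u : A)) - star y * x := by
          rw [← mul_sub, ← hy]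
        rw [e4, map_sub, ← mul_assoc, h.comm _ (star (u : A))]
        have e5 : star (u : A) * (star y * ((u : A) * x)) = star (u : A) * star y * u * x := by
          simp only [mul_assoc]
        rw [e5, hys, sub_self]
      rw [hy0] at hy
      have h6 : (u : A) * x * star (u : A) = x := (sub_eq_zero.1 hy.symm)
      calc (u : A) * x = (u : A) * x * (star (u : A) * u) := by rw [hu1, mul_one]
        _ = (u : A) * x * star (u : A) * u := by simp only [mul_assoc]
        _ = x * u := by rw [h6]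
    obtain ⟨c, hc1⟩ := hc (u : A) hcen
    have h7 := hu 1 one_ne_zero
    rw [zpow_one, hc1, map_smul, h.one, smul_eq_mul, mul_one] at h7
    rw [h7, zero_smul] at hc1
    have h8 := h.one
    rw [← hu1, hc1, mul_zero, map_zero] at h8
    exact zero_ne_one h8


/-- the elements `b` with `N b N` in the algebra -/
def JQ (τ : A →ₗ[ℂ] ℂ) (T : Set A) (b : A) : Prop := ∀ x z : A, QQ τ T (x * b * z)

theorem JQ_cl (h : TW τ) {T : Set A} {b : A} (hb : ∀ ε : ℝ, 0 < ε → ∃ c, JQ τ T c ∧ n2 τ (b - c) < ε) : JQ τ T b := by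
  intro x z
  refine QQ_cl h fun ε hε => ?_
  obtain ⟨c, hc, hbc⟩ := hb (ε / (‖x‖ * ‖z‖ + 1)) (by positivity)
  refine ⟨x * c * z, hc x z, ?_⟩
  have e : x * b * z - x * c * z = x * (b - c) * z := by noncomm_ring
  rw [e]
  have h1 := (n2_mul_le h z (x * (b - c))).2
  have h2 := (n2_mul_le h x (b - c)).1
  rw [lt_div_iff₀ (by positivity)] at hbc
  have h3 := n2_nonneg τ (b - c)
  have h4 := norm_nonneg z
  have h5 : n2 τ (x * (b - c)) * ‖z‖ ≤ ‖x‖ * n2 τ (b - c) * ‖z‖ :=
    mul_le_mul_of_nonneg_right h2 h4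
  nlinarith


theorem QQ_ideal (h : TW τ) (hc : ∀ z : A, (∀ x : A, z * x = x * z) → ∃ c : ℂ, z = c • (1 : A))
    {T : Set A} (a : A) (haJ : JQ τ T (star a * a)) (ha0 : τ (star a * a) ≠ 0) (x : A) :
    QQ τ T x := by
  obtain ⟨z, hz, -, hfix⟩ := exists_fixed h
    {b : A | JQ τ T b ∧ τ b = τ (star a * a) ∧ ‖b‖ ≤ ‖star a * a‖}
    ⟨star a * a, haJ, rfl, le_rfl⟩
    (by
      intro b hb b' hb' r s hr hs hrs
      refine ⟨?_, ?_, ?_⟩
      · intro x z
        have := QQ_add h (QQ_smul (hb.1 x z) (r : ℂ)) (QQ_smul (hb'.1 x z) (s : ℂ))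
        rw [Complex.coe_smul, Complex.coe_smul] at this
        have e : x * (r • b + s • b') * z = r • (x * b * z) + s • (x * b' * z) := by
          rw [mul_add, add_mul, mul_smul_comm, mul_smul_comm, smul_mul_assoc, smul_mul_assoc]
        rw [e]; exact this
      · rw [← Complex.coe_smul, ← Complex.coe_smul s, map_add, map_smul, map_smul, hb.2.1, hb'.2.1,
          ← add_smul, ← Complex.ofReal_add, hrs, Complex.ofReal_one, one_smul]
      · have : ‖r • b + s • b'‖ ≤ r * ‖star a * a‖ + s * ‖star a * a‖ := by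
          refine (norm_add_le _ _).trans ?_
          rw [norm_smul, norm_smul, Real.norm_of_nonneg hr, Real.norm_of_nonneg hs]
          exact add_le_add (mul_le_mul_of_nonneg_left hb.2.2 hr)
            (mul_le_mul_of_nonneg_left hb'.2.2 hs)
        rw [← add_mul, hrs, one_mul] at this
        exact this)
    ‖star a * a‖ (fun y hy => hy.2.2)
  have hzg : ∀ g : unitary A, (g : A) * z = z * g := by
    intro g
    have hg1 : star (g : A) * g = 1 := Unitary.coe_star_mul_self g
    have hg2 : (g : A) * star (g : A) = 1 := Unitary.coe_mul_star_self g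
    have h9 : (g : A) * z * star (g : A) = z := by
      have := hfix ((LinearMap.mulRight ℂ (star (g : A))).comp (LinearMap.mulLeft ℂ (g : A))) ?_ ?_
      · simpa using this
      · intro y
        show n2 τ ((g : A) * y * star (g : A)) = n2 τ y
        rw [n2_uni_right h (by rw [star_star]; exact hg1), n2_uni_left h hg1]
      · rintro b ⟨hb1, hb2, hb3⟩
        show JQ τ T ((g : A) * b * star (g : A)) ∧ τ ((g : A) * b * star (g : A)) = τ (star a * a) ∧
          ‖(g : A) * b * star (g : A)‖ ≤ ‖star a * a‖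
        refine ⟨?_, ?_, ?_⟩
        · intro x z
          have := hb1 (x * g) (star (g : A) * z)
          have e : x * ((g : A) * b * star (g : A)) * z = x * (g : A) * b * (star (g : A) * z) := by
            simp only [mul_assoc]
          rw [e]; exact this
        · rw [h.comm, ← mul_assoc, hg1, one_mul, hb2]
        · have hgn : ‖(g : A)‖ ≤ 1 := norm_le_of_uni hg1
          calc ‖(g : A) * b * star (g : A)‖ ≤ ‖(g : A) * b‖ * ‖star (g : A)‖ := norm_mul_le _ _
            _ ≤ ‖(g : A)‖ * ‖b‖ * ‖star (g : A)‖ :=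
                mul_le_mul_of_nonneg_right (norm_mul_le _ _) (norm_nonneg _)
            _ ≤ 1 * ‖star a * a‖ * 1 := by
                rw [norm_star]
                gcongr
            _ = ‖star a * a‖ := by ring
    calc (g : A) * z = (g : A) * z * (star (g : A) * g) := by rw [hg1, mul_one]
      _ = (g : A) * z * star (g : A) * g := by simp only [mul_assoc]
      _ = z * g := by rw [h9]
  have hzc : ∀ x : A, z * x = x * z := by
    intro x
    have hx : x ∈ Submodule.span ℂ ((unitary A : Set A)) := by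
      rw [CStarAlgebra.span_unitary]; exact Submodule.mem_top
    induction hx using Submodule.span_induction with
    | mem g hg => exact (hzg ⟨g, hg⟩).symm
    | zero => rw [mul_zero, zero_mul]
    | add p q _ _ hp hq => rw [mul_add, add_mul, hp, hq]
    | smul c p _ hp => rw [mul_smul_comm, smul_mul_assoc, hp]
  obtain ⟨c, hc1⟩ := hc z hzc
  have hτz : τ z = τ (star a * a) := by
    have h10 : ‖τ z - τ (star a * a)‖ ≤ 0 := by
      refine le_of_forall_pos_le_add fun ε hε => ?_
      obtain ⟨b, hb, hzb⟩ := hz ε hε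
      rw [← hb.2.1, ← map_sub]
      have h11 := h.cauchy' 1 (z - b)
      rw [one_mul] at h11
      have h12 : n2 τ (1 : A) = 1 := by
        unfold n2
        rw [star_one, mul_one, h.one]
        simp
      rw [h12, one_mul] at h11
      linarith
    exact sub_eq_zero.1 (norm_le_zero_iff.1 h10)
  have hc0 : c ≠ 0 := by
    rintro rfl
    rw [hc1, zero_smul, map_zero] at hτz
    exact ha0 hτz.symm
  have hzJ : JQ τ T z := JQ_cl h fun ε hε => by
    obtain ⟨b, hb, hzb⟩ := hz ε hε
    exact ⟨b, hb.1, hzb⟩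
  have h13 := QQ_smul (hzJ x 1) c⁻¹
  rw [hc1, mul_one, mul_smul_comm, mul_one, smul_smul, inv_mul_cancel₀ hc0, one_smul] at h13
  exact h13


/-- **A somewhere dense set of Haar unitaries generates.** -/
theorem gen_of_somewhere (h : TW τ)
    (hc : ∀ z : A, (∀ x : A, z * x = x * z) → ∃ c : ℂ, z = c • (1 : A))
    (S : Set (unitary A)) (v0 : unitary A) (hv0 : Haar τ v0) (ρ : ℝ) (hρ : 0 < ρ)
    (hS : ∀ v : unitary A, Haar τ v → n2 τ ((v : A) - v0) < ρ →
      ∀ ε : ℝ, 0 < ε → ∃ w ∈ S, n2 τ ((v : A) - w) < ε) (x : A) :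
    x ∈ Cl τ (StarAlgebra.adjoin ℂ ((fun v : unitary A => (v : A)) '' S) : Set A) := by
  obtain ⟨T, hT⟩ : ∃ T, T = (fun v : unitary A => (v : A)) '' S := ⟨_, rfl⟩
  have hnear : Near τ (QQ τ T) v0 ρ := by
    intro v hv hvv
    refine QQ_cl h fun ε hε => ?_
    obtain ⟨w, hw, hvw⟩ := hS v hv hvv ε hε
    exact ⟨(w : A), QQ_of_mem τ (StarAlgebra.subset_adjoin ℂ _ (by rw [hT]; exact ⟨w, hw, rfl⟩)), hvw⟩
  have h00 : n2 τ ((v0 : A) - v0) < ρ / 2 := by rw [sub_self, n2_zero]; positivity
  have had := near_ad' h (QQ τ T) (fun x hx => QQ_cl h hx) (fun x y hx hy => QQ_sub h hx hy)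
    (fun c x hx => QQ_smul hx c) hnear hv0 h00 hρ
  -- a noncommuting Haar unitary near `v0`
  obtain ⟨v1, hv1, hv1n, hne⟩ : ∃ v1 : unitary A, Haar τ v1 ∧ n2 τ ((v1 : A) - v0) < ρ ∧
      (v0 : A) * v1 - v1 * v0 ≠ 0 := by
    by_contra hcon
    push Not at hcon
    refine not_dbl h hc hv0 fun x => ?_
    have h1 := near_ad' h (fun y : A => y * v0 - v0 * y = 0)
      (by
        intro y hy
        refine h.eq_zero (le_antisymm (le_of_forall_pos_le_add fun ε hε => ?_) (n2_nonneg _ _))
        obtain ⟨z, hz, hyz⟩ := hy (ε / 2) (by positivity)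
        have e : y * v0 - v0 * y = (y - z) * v0 - v0 * (y - z) := by
          have : (y - z) * (v0 : A) - v0 * (y - z) = y * v0 - v0 * y - (z * v0 - v0 * z) := by
            noncomm_ring
          rw [this, hz, sub_zero]
        rw [e]
        refine (h.n2_sub_le _ _).trans ?_
        rw [n2_uni_right h (Unitary.coe_mul_star_self v0),
          n2_uni_left h (Unitary.coe_star_mul_self v0)]
        linarith)
      (by
        intro y z hy hz
        have : (y - z) * (v0 : A) - v0 * (y - z) = y * v0 - v0 * y - (z * v0 - v0 * z) := by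
          noncomm_ring
        rw [this, hy, hz, sub_zero])
      (by
        intro c y hy
        rw [smul_mul_assoc, mul_smul_comm, ← smul_sub, hy, smul_zero])
      (v0 := v0) (v := v0) (ρ := ρ)
      (by
        intro v hv hvn
        have h2 := hcon v hv hvn
        rw [← neg_sub, h2, neg_zero])
      hv0 h00 hρ x
    exact h1
  obtain ⟨a, ha⟩ : ∃ a, a = (v0 : A) * v1 - v1 * v0 := ⟨_, rfl⟩
  have hv0Q : QQ τ T v0 := hnear v0 hv0 (by linarith)
  have hv1Q : QQ τ T v1 := hnear v1 hv1 hv1n
  have hxa : ∀ x : A, QQ τ T (x * a) := by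
    intro x
    have a1 := had (x * v1)
    have a2 := QQ_mul h (had x) hv1Q
    have a3 := QQ_sub h a2 a1
    have e : (x * v0 - v0 * x) * v1 - (x * v1 * v0 - v0 * (x * v1)) = x * a := by
      rw [ha]
      noncomm_ring
    rwa [e] at a3
  have hJ : JQ τ T (star (star a) * star a) := by
    intro x z
    have h5 := QQ_mul h (hxa x) (QQ_star h (hxa (star z)))
    rw [star_mul, star_star] at h5
    have e : x * (star (star a) * star a) * z = x * a * (star a * z) := by
      rw [star_star]; simp only [mul_assoc]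
    rw [e]; exact h5
  have h0 : τ (star (star a) * star a) ≠ 0 := by
    intro h0
    have h6 := h.faithful (star a) h0
    rw [star_eq_zero] at h6
    exact hne (by rw [← ha]; exact h6)
  have h7 := QQ_ideal h hc (star a) hJ h0 x
  rw [hT] at h7
  exact h7

end Pool.Agent.H917R3.DO
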