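import Mathlib
import Pool.Agent.H917R3.DO.Inv
import Pool.Agent.H917R3.DO.Some

set_option autoImplicit false

open scoped ComplexOrder Topology
open Filter

noncomputable section

namespace Pool.Agent.H917R3.DO

open Pool.Agent.H467F Pool.Agent.H80R3.SO

variable {A : Type} [CStarAlgebra A] {τ : A →ₗ[ℂ] ℂ}

/-- An orbit with nonempty interior is invariant under conjugation. -/
theorem inv_of_interior (hF : Fac τ)
    (hc : ∀ z : A, (∀ x : A, z * x = x * z) → ∃ c : ℂ, z = c • (1 : A))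
    {u : unitary A} (hu : Haar τ u) (v0 : unitary A) (hv0 : Haar τ v0) (ρ : ℝ) (hρ : 0 < ρ)
    (hO : ∀ v : unitary A, Haar τ v → n2 τ ((v : A) - v0) < ρ → Ob τ u v) (g : unitary A) :
    ∃ m, R τ m u (g * u * star g) := by
  have h := hF.tw
  have hgen := gen_of_somewhere h hc {v | Ob τ u v} v0 hv0 ρ hρ (fun v hv hvv ε hε =>
    ⟨v, hO v hv hvv, by rw [sub_self, n2_zero]; exact hε⟩)
  obtain ⟨k, ⟨m, hm⟩, hgk⟩ := Gs_dense hF hu hgen g (ρ / 2) (by positivity)
  obtain ⟨-, p, hp⟩ := hO v0 hv0 (by rw [sub_self, n2_zero]; exact hρ)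
  obtain ⟨r, hr⟩ : ∃ r : unitary A, r = g * star k := ⟨_, rfl⟩
  have hrk : r * k = g := by rw [hr, mul_assoc, Unitary.star_mul_self, mul_one]
  have hr1 : n2 τ ((r : A) - 1) < ρ / 2 := by
    have e : ((r : A) - 1) * (k : A) = (g : A) - k := by
      rw [sub_mul, one_mul, ← hrk]; rfl
    rw [← n2_uni_right h (Unitary.coe_mul_star_self k) ((r : A) - 1), e]
    exact hgk
  have hr2 : n2 τ (((r * v0 * star r : unitary A) : A) - v0) < ρ := by
    have e : ((r * v0 * star r : unitary A) : A) - (v0 : A) =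
        (((r : A) - 1) * v0) * star (r : A) + (v0 : A) * star ((r : A) - 1) := by
      show (r : A) * v0 * star (r : A) - (v0 : A) = _
      rw [star_sub, star_one]
      noncomm_ring
    rw [e]
    refine lt_of_le_of_lt (h.n2_add_le _ _) ?_
    rw [n2_uni_right h (by rw [star_star]; exact Unitary.coe_star_mul_self r),
      n2_uni_right h (Unitary.coe_mul_star_self v0),
      n2_uni_left h (Unitary.coe_star_mul_self v0), h.n2_star]
    linarith
  obtain ⟨-, q, hq⟩ := hO _ (haar_conj h hv0 r) hr2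
  -- `u ~ r v0 r* ~ r u r*`
  have h1 := p_TR3 A τ h p r _ _ hp
  have h2 := p_TR2 A τ h _ _ _ _ _ (haar_conj h hv0 r) hq (p_TR1 A τ h _ _ _ h1)
  have h3 := p_TR3 A τ h m r _ _ hm
  rw [conj_conj, hrk] at h3
  exact ⟨_, p_TR2 A τ h _ _ _ _ _ (haar_conj h hu r) h2 h3⟩

end Pool.Agent.H917R3.DO
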